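import Pool.Agent.Q72.DS.AlgC

/-!
Project DS: job ALGB.
-/

set_option autoImplicit false

namespace Pool.Agent.Q72.DS.AlgB

open Complex Metric Real Set Filter Topology
open Pool.Agent.Q72.DS

theorem aux (a b u v u₁ v₁ : ℂ) (p x y : ℤ) (hu : u ≠ 0) (hv : v ≠ 0) (hu₁ : u₁ ≠ 0) (hv₁ : v₁ ≠ 0)
    (huv : u ≠ v) (h1 : v₁ ≠ 1) (huv₁ : u₁ ≠ v₁) (hp : 0 < p)
    (h : ∀ t : ℂ, t ≠ 0 → Rel a b (t ^ p * u) (t ^ p * v) (t ^ x * u₁) (t ^ y * v₁)) :
    a * u = b * v := by
  classical
  by_contra hne
  set A : ℂ := b * v - a * u with hA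
  set B : ℂ := u * (u - v) + (a - b) * u * v with hB
  set C : ℂ := -(u * v * (u - v)) with hC
  set D : ℂ := (u - v) ^ 2 with hD
  have hA0 : A ≠ 0 := fun h0 => hne (by linear_combination -h0)
  have huv' : u - v ≠ 0 := sub_ne_zero.2 huv
  have hC0 : C ≠ 0 := neg_ne_zero.2 (mul_ne_zero (mul_ne_zero hu hv) huv')
  have hD0 : D ≠ 0 := pow_ne_zero _ huv'
  let f : ℤ → ℂ := fun k => (if k = x + p then u₁ * D else 0)
    + (if k = x + y + p then -(u₁ * v₁ * D) else 0)
    + (if k = x then -(u₁ * A) else 0) + (if k = x + p then -(u₁ * B) else 0)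
    + (if k = x + 2 * p then -(u₁ * C) else 0)
    + (if k = y then v₁ * A else 0) + (if k = y + p then v₁ * B else 0)
    + (if k = y + 2 * p then v₁ * C else 0)
  let s : Finset ℤ := {x + p, x + y + p, x, x + 2 * p, y, y + p, y + 2 * p}
  have key := AlgC.laur s f (fun t ht => by
    have h1 : ∑ k ∈ s, f k * t ^ k
        = u₁ * D * t ^ (x + p) + -(u₁ * v₁ * D) * t ^ (x + y + p) + -(u₁ * A) * t ^ x
          + -(u₁ * B) * t ^ (x + p) + -(u₁ * C) * t ^ (x + 2 * p) + v₁ * A * t ^ y
          + v₁ * B * t ^ (y + p) + v₁ * C * t ^ (y + 2 * p) := by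
      simp only [f, s, add_mul, Finset.sum_add_distrib, ite_mul, zero_mul, Finset.sum_ite_eq']
      simp
    rw [h1]
    have h2 := h t ht
    unfold Rel at h2
    have htp : t ^ p ≠ 0 := zpow_ne_zero _ ht
    have e2 : t ^ (2 * p) = t ^ p * t ^ p := by rw [two_mul, zpow_add₀ ht]
    rw [zpow_add₀ ht, zpow_add₀ ht, zpow_add₀ ht, zpow_add₀ ht, zpow_add₀ ht, zpow_add₀ ht, e2]
    apply mul_left_cancel₀ htp
    rw [hA, hB, hC, hD]
    linear_combination h2)
  have keyAll : ∀ k : ℤ, f k = 0 := by
    intro k
    by_cases hk : k ∈ s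
    · exact key k hk
    · simp only [s, Finset.mem_insert, Finset.mem_singleton, not_or] at hk
      obtain ⟨c1, c2, c3, c4, c5, c6, c7⟩ := hk
      simp only [f, if_neg c1, if_neg c2, if_neg c3, if_neg c4, if_neg c5, if_neg c6, if_neg c7]
      simp
  clear key
  -- lowest exponents
  have low : min x y = x + p + min 0 y := by
    rcases lt_trichotomy (min x y) (x + p + min 0 y) with h2 | h2 | h2
    · exfalso
      have k1 := keyAll (min x y)
      simp only [f] at k1
      rcases lt_trichotomy x y with h3 | h3 | h3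
      · rw [min_eq_left h3.le] at k1 h2
        simp (disch := omega) only [if_neg, if_pos, if_true] at k1
        have : u₁ * A = 0 := by linear_combination -k1
        exact mul_ne_zero hu₁ hA0 this
      · subst h3
        rw [min_self] at k1 h2
        simp (disch := omega) only [if_neg, if_pos, if_true] at k1
        have : (u₁ - v₁) * A = 0 := by linear_combination -k1
        exact mul_ne_zero (sub_ne_zero.2 huv₁) hA0 this
      · rw [min_eq_right h3.le] at k1 h2
        simp (disch := omega) only [if_neg, if_pos, if_true] at k1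
        have : v₁ * A = 0 := by linear_combination k1
        exact mul_ne_zero hv₁ hA0 this
    · exact h2
    · exfalso
      have hy : y < 0 := by
        by_contra hy
        omega
      have k1 := keyAll (x + y + p)
      simp only [f] at k1
      simp (disch := omega) only [if_neg, if_pos, if_true] at k1
      have : u₁ * v₁ * D = 0 := by linear_combination -k1
      exact mul_ne_zero (mul_ne_zero hu₁ hv₁) hD0 this
  have high : max x y + 2 * p = x + p + max 0 y := by
    rcases lt_trichotomy (x + p + max 0 y) (max x y + 2 * p) with h2 | h2 | h2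
    · exfalso
      have k1 := keyAll (max x y + 2 * p)
      simp only [f] at k1
      rcases lt_trichotomy x y with h3 | h3 | h3
      · rw [max_eq_right h3.le] at k1 h2
        simp (disch := omega) only [if_neg, if_pos, if_true] at k1
        have : v₁ * C = 0 := by linear_combination k1
        exact mul_ne_zero hv₁ hC0 this
      · subst h3
        rw [max_self] at k1 h2
        simp (disch := omega) only [if_neg, if_pos, if_true] at k1
        have : (u₁ - v₁) * C = 0 := by linear_combination -k1
        exact mul_ne_zero (sub_ne_zero.2 huv₁) hC0 this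
      · rw [max_eq_left h3.le] at k1 h2
        simp (disch := omega) only [if_neg, if_pos, if_true] at k1
        have : u₁ * C = 0 := by linear_combination -k1
        exact mul_ne_zero hu₁ hC0 this
    · exact h2.symm
    · exfalso
      omega
  omega

theorem main : S_algB := by
  intro a b u v u₁ v₁ p x y hu hv hu₁ hv₁ huv h1 huv₁ hp h
  rcases lt_or_gt_of_ne hp with h2 | h2
  · refine aux a b u v u₁ v₁ (-p) (-x) (-y) hu hv hu₁ hv₁ huv h1 huv₁ (by omega) fun t ht => ?_
    have := h t⁻¹ (inv_ne_zero ht)
    rwa [inv_zpow', inv_zpow', inv_zpow'] at this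
  · exact aux a b u v u₁ v₁ p x y hu hv hu₁ hv₁ huv h1 huv₁ h2 h

end Pool.Agent.Q72.DS.AlgB
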