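import Pool.Agent.Q72.DS.Stm

/-!
Project DS: elementary facts on Laurent polynomials in one variable (job ALGC).
-/

set_option autoImplicit false

namespace Pool.Agent.Q72.DS.AlgC

open Complex Metric Real Set Filter Topology
open Pool.Agent.Q72.DS

/-- A Laurent polynomial which vanishes identically has zero coefficients. -/
theorem laur (s : Finset ℤ) (f : ℤ → ℂ) (h : ∀ t : ℂ, t ≠ 0 → ∑ k ∈ s, f k * t ^ k = 0) :
    ∀ k ∈ s, f k = 0 := by
  classical
  obtain ⟨N, hN⟩ : ∃ N : ℕ, ∀ k ∈ s, 0 ≤ k + N := by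
    refine ⟨∑ k ∈ s, k.natAbs, fun k hk => ?_⟩
    have h1 : k.natAbs ≤ ∑ k ∈ s, k.natAbs := Finset.single_le_sum (fun _ _ => Nat.zero_le _) hk
    have h2 : -(k.natAbs : ℤ) ≤ k := by omega
    have h3 : ((k.natAbs : ℕ) : ℤ) ≤ ((∑ k ∈ s, k.natAbs : ℕ) : ℤ) := by exact_mod_cast h1
    linarith
  let P : Polynomial ℂ := ∑ k ∈ s, Polynomial.C (f k) * Polynomial.X ^ (k + N).toNat
  have hP : P = 0 := by
    refine Polynomial.eq_zero_of_infinite_isRoot P (Set.Infinite.mono (s := {t : ℂ | t ≠ 0}) ?_ ?_)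
    · intro t ht
      have ht' : t ≠ 0 := ht
      show Polynomial.eval t P = 0
      simp only [P, Polynomial.eval_finsetSum, Polynomial.eval_mul, Polynomial.eval_C,
        Polynomial.eval_pow, Polynomial.eval_X]
      have h1 : ∑ k ∈ s, f k * t ^ (k + N).toNat = (∑ k ∈ s, f k * t ^ k) * t ^ N := by
        rw [Finset.sum_mul]
        refine Finset.sum_congr rfl fun k hk => ?_
        have h2 : t ^ (k + N).toNat = t ^ k * t ^ N := by
          rw [← zpow_natCast, Int.toNat_of_nonneg (hN k hk), zpow_add₀ ht', zpow_natCast]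
        rw [h2]; ring
      rw [h1, h t ht', zero_mul]
    · have : ({t : ℂ | t ≠ 0}) = ({0} : Set ℂ)ᶜ := by ext; simp
      rw [this]
      exact (Set.finite_singleton (0 : ℂ)).infinite_compl
  intro k hk
  have h1 : P.coeff (k + N).toNat = f k := by
    simp only [P, Polynomial.finsetSum_coeff, Polynomial.coeff_C_mul, Polynomial.coeff_X_pow]
    rw [Finset.sum_eq_single k]
    · simp
    · intro j hj hjk
      rw [if_neg]
      · simp
      · intro h2
        have h3 := hN k hk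
        have h4 := hN j hj
        omega
    · intro h2; exact absurd hk h2
  rw [← h1, hP]; simp

theorem zt {k : ℤ} (hk : k < 0) : Tendsto (fun t : ℝ => (t : ℂ) ^ k) atTop (𝓝 0) := by
  have h1 : Tendsto (fun t : ℝ => t ^ k) atTop (𝓝 0) := tendsto_zpow_atTop_zero hk
  have h2 : Tendsto (fun t : ℝ => ((t ^ k : ℝ) : ℂ)) atTop (𝓝 ((0 : ℝ) : ℂ)) :=
    (Complex.continuous_ofReal.tendsto _).comp h1
  simpa using h2

theorem ztop {k : ℤ} (hk : 0 < k) : Tendsto (fun t : ℝ => ‖(t : ℂ) ^ k‖) atTop atTop := by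
  have h1 : Tendsto (fun t : ℝ => ‖(t : ℂ) ^ (-k)‖) atTop (𝓝[>] 0) := by
    refine tendsto_nhdsWithin_iff.2 ⟨?_, ?_⟩
    · have := (zt (k := -k) (by omega)).norm
      simpa using this
    · filter_upwards [eventually_gt_atTop (0 : ℝ)] with t ht
      have ht' : (t : ℂ) ≠ 0 := by exact_mod_cast ht.ne'
      exact norm_pos_iff.2 (zpow_ne_zero _ ht')
  have h2 := h1.inv_tendsto_nhdsGT_zero
  refine h2.congr fun t => ?_
  simp [zpow_neg]

/-- First claim for `δ > 0`. -/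
theorem first (X X₁ ω : ℂ) (n : ℕ) (δ δ₁ : ℤ) (hX : X ≠ 0) (hω : ω ≠ 0) (hn : 0 < n) (hδ : 0 < δ)
    (h : ∀ t : ℂ, t ≠ 0 → ∑ j ∈ Finset.Icc 1 n, (t ^ δ * X) ^ j
      - ∑ j ∈ Finset.Icc 1 n, (j : ℂ) * ω * ((t ^ δ * X)⁻¹) ^ j
      - ∑ j ∈ Finset.Icc 1 n, (t ^ δ₁ * X₁) ^ j = 0) : False := by
  classical
  let P : Polynomial ℂ := ∑ j ∈ Finset.Icc 1 n, Polynomial.X ^ j
  let Q : Polynomial ℂ := ∑ j ∈ Finset.Icc 1 n, Polynomial.C ((j : ℂ) * ω) * Polynomial.X ^ j
  have hPe : ∀ z : ℂ, P.eval z = ∑ j ∈ Finset.Icc 1 n, z ^ j := fun z => by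
    simp [P, Polynomial.eval_finsetSum]
  have hQe : ∀ z : ℂ, Q.eval z = ∑ j ∈ Finset.Icc 1 n, (j : ℂ) * ω * z ^ j := fun z => by
    simp [Q, Polynomial.eval_finsetSum]
  have hPc : P.coeff n = 1 := by
    simp only [P, Polynomial.finsetSum_coeff, Polynomial.coeff_X_pow]
    rw [Finset.sum_eq_single n]
    · simp
    · intro j _ hj; rw [if_neg (Ne.symm hj)]
    · intro h2; exact absurd (Finset.mem_Icc.2 ⟨hn, le_rfl⟩) h2
  have hQc : Q.coeff n = (n : ℂ) * ω := by
    simp only [Q, Polynomial.finsetSum_coeff, Polynomial.coeff_C_mul, Polynomial.coeff_X_pow]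
    rw [Finset.sum_eq_single n]
    · simp
    · intro j _ hj; rw [if_neg (Ne.symm hj), mul_zero]
    · intro h2; exact absurd (Finset.mem_Icc.2 ⟨hn, le_rfl⟩) h2
  have hdeg : ∀ R : Polynomial ℂ, R.coeff n ≠ 0 → 0 < R.degree := fun R hR => by
    have h1 : (n : WithBot ℕ) ≤ R.degree := Polynomial.le_degree_of_ne_zero hR
    exact lt_of_lt_of_le (by exact_mod_cast hn) h1
  have hPd : 0 < P.degree := hdeg P (by rw [hPc]; exact one_ne_zero)
  have hQd : 0 < Q.degree := hdeg Q (by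
    rw [hQc]; exact mul_ne_zero (by exact_mod_cast hn.ne') hω)
  have h' : ∀ t : ℂ, t ≠ 0 → P.eval (t ^ δ * X) - Q.eval ((t ^ δ * X)⁻¹) - P.eval (t ^ δ₁ * X₁) = 0 :=
    fun t ht => by rw [hPe, hPe, hQe]; exact h t ht
  have hXn : 0 < ‖X‖ := norm_pos_iff.2 hX
  by_cases h1 : δ₁ ≤ 0
  · -- `t → ∞`
    have a1 : Tendsto (fun t : ℝ => ‖(t : ℂ) ^ δ * X‖) atTop atTop := by
      simp only [norm_mul]
      exact (ztop hδ).atTop_mul_const hXn
    have a2 : Tendsto (fun t : ℝ => ‖P.eval ((t : ℂ) ^ δ * X)‖) atTop atTop :=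
      Polynomial.tendsto_norm_atTop P hPd a1
    have a3 : Tendsto (fun t : ℝ => ((t : ℂ) ^ δ * X)⁻¹) atTop (𝓝 0) := by
      have : Tendsto (fun t : ℝ => (t : ℂ) ^ (-δ) * X⁻¹) atTop (𝓝 (0 * X⁻¹)) :=
        (zt (k := -δ) (by omega)).mul_const _
      rw [zero_mul] at this
      refine this.congr fun t => ?_
      rw [mul_inv, zpow_neg]
    have a4 : ∃ L : ℂ, Tendsto (fun t : ℝ => (t : ℂ) ^ δ₁ * X₁) atTop (𝓝 L) := by
      rcases lt_or_eq_of_le h1 with h2 | h2
      · exact ⟨0 * X₁, (zt h2).mul_const _⟩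
      · subst h2
        exact ⟨X₁, by simp⟩
    obtain ⟨L, hL⟩ := a4
    have a5 : Tendsto (fun t : ℝ => ‖Q.eval (((t : ℂ) ^ δ * X)⁻¹) + P.eval ((t : ℂ) ^ δ₁ * X₁)‖) atTop
        (𝓝 ‖Q.eval 0 + P.eval L‖) :=
      (((Q.continuous.tendsto 0).comp a3).add ((P.continuous.tendsto L).comp hL)).norm
    refine not_tendsto_nhds_of_tendsto_atTop a2 _ (a5.congr' ?_)
    filter_upwards [eventually_gt_atTop (0 : ℝ)] with t ht
    have ht' : (t : ℂ) ≠ 0 := by exact_mod_cast ht.ne'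
    have := h' t ht'
    congr 1
    linear_combination -this
  · -- `t → 0`, we use `t⁻¹` with `t → ∞`
    push Not at h1
    have b1 : Tendsto (fun t : ℝ => (t : ℂ) ^ (-δ) * X) atTop (𝓝 0) := by
      have : Tendsto (fun t : ℝ => (t : ℂ) ^ (-δ) * X) atTop (𝓝 (0 * X)) :=
        (zt (k := -δ) (by omega)).mul_const _
      rwa [zero_mul] at this
    have b2 : Tendsto (fun t : ℝ => (t : ℂ) ^ (-δ₁) * X₁) atTop (𝓝 0) := by
      have : Tendsto (fun t : ℝ => (t : ℂ) ^ (-δ₁) * X₁) atTop (𝓝 (0 * X₁)) :=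
        (zt (k := -δ₁) (by omega)).mul_const _
      rwa [zero_mul] at this
    have b3 : Tendsto (fun t : ℝ => ‖((t : ℂ) ^ (-δ) * X)⁻¹‖) atTop atTop := by
      have : Tendsto (fun t : ℝ => ‖(t : ℂ) ^ δ‖ * ‖X‖⁻¹) atTop atTop :=
        (ztop hδ).atTop_mul_const (inv_pos.2 hXn)
      refine this.congr fun t => ?_
      rw [mul_inv, norm_mul, norm_inv, norm_inv, zpow_neg, norm_inv, inv_inv]
    have b4 : Tendsto (fun t : ℝ => ‖Q.eval (((t : ℂ) ^ (-δ) * X)⁻¹)‖) atTop atTop :=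
      Polynomial.tendsto_norm_atTop Q hQd b3
    have b5 : Tendsto (fun t : ℝ => ‖P.eval ((t : ℂ) ^ (-δ) * X) - P.eval ((t : ℂ) ^ (-δ₁) * X₁)‖) atTop
        (𝓝 ‖P.eval 0 - P.eval 0‖) :=
      (((P.continuous.tendsto 0).comp b1).sub ((P.continuous.tendsto 0).comp b2)).norm
    refine not_tendsto_nhds_of_tendsto_atTop b4 _ (b5.congr' ?_)
    filter_upwards [eventually_gt_atTop (0 : ℝ)] with t ht
    have ht' : (t : ℂ) ≠ 0 := by exact_mod_cast ht.ne'
    have := h' (t : ℂ)⁻¹ (inv_ne_zero ht')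
    rw [inv_zpow', inv_zpow'] at this
    congr 1
    linear_combination this

/-- Second claim. -/
theorem second (φ u₁ v₁ : ℂ) (x y : ℤ) (hu : u₁ ≠ 0) (hv : v₁ ≠ 0) (hxy : ¬ (x = 0 ∧ y = 0))
    (h : ∀ t : ℂ, t ≠ 0 → φ * (t ^ x * u₁ - t ^ y * v₁) = t ^ x * u₁ * (1 - t ^ y * v₁)) :
    u₁ = 1 ∨ φ = 0 := by
  classical
  let f : ℤ → ℂ := fun k => (if k = x then (φ - 1) * u₁ else 0) + (if k = y then -φ * v₁ else 0)
    + (if k = x + y then u₁ * v₁ else 0)
  have key := laur {x, y, x + y} f (fun t ht => by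
    have h1 : ∑ k ∈ ({x, y, x + y} : Finset ℤ), f k * t ^ k
        = (φ - 1) * u₁ * t ^ x + -φ * v₁ * t ^ y + u₁ * v₁ * t ^ (x + y) := by
      simp only [f, add_mul, Finset.sum_add_distrib, ite_mul, zero_mul, Finset.sum_ite_eq']
      simp
    rw [h1, zpow_add₀ ht]
    linear_combination h t ht)
  by_cases hx : x = 0
  · subst hx
    have hy : y ≠ 0 := fun h0 => hxy ⟨rfl, h0⟩
    have k1 := key 0 (by simp)
    have k2 := key y (by simp)
    simp only [f, zero_add, if_true] at k1 k2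
    rw [if_neg (Ne.symm hy), if_neg (Ne.symm hy)] at k1
    rw [if_neg hy] at k2
    have h3 : φ = 1 := by
      have : (φ - 1) * u₁ = 0 := by simpa using k1
      rcases mul_eq_zero.1 this with h4 | h4
      · linear_combination h4
      · exact absurd h4 hu
    left
    have h4 : (u₁ - 1) * v₁ = 0 := by
      rw [h3] at k2
      linear_combination k2
    rcases mul_eq_zero.1 h4 with h5 | h5
    · linear_combination h5
    · exact absurd h5 hv
  · by_cases hy : y = 0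
    · subst hy
      right
      have k1 := key 0 (by simp)
      simp only [f, add_zero, if_true] at k1
      rw [if_neg (Ne.symm hx), if_neg (Ne.symm hx)] at k1
      have : -φ * v₁ = 0 := by linear_combination k1
      rcases mul_eq_zero.1 this with h4 | h4
      · exact neg_eq_zero.1 h4
      · exact absurd h4 hv
    · exfalso
      have k1 := key (x + y) (by simp)
      simp only [f, if_true] at k1
      rw [if_neg (by omega), if_neg (by omega)] at k1
      have : u₁ * v₁ = 0 := by simpa using k1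
      exact mul_ne_zero hu hv this

theorem main : S_algC := by
  refine ⟨fun X X₁ ω n δ δ₁ hX hX₁ hω hn hδ h => ?_, second⟩
  rcases lt_or_gt_of_ne hδ with h1 | h1
  · refine first X X₁ ω n (-δ) (-δ₁) hX hω hn (by omega) fun t ht => ?_
    have := h t⁻¹ (inv_ne_zero ht)
    rwa [inv_zpow', inv_zpow'] at this
  · exact first X X₁ ω n δ δ₁ hX hω hn h1 h

end Pool.Agent.Q72.DS.AlgC
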