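import Pool.Agent.Q72.DS.Mono

/-!
Project DS (helper72): jobs GROW and BASIC.
-/

set_option autoImplicit false

namespace Pool.Agent.Q72.DS

open Complex Metric Real Set Filter Topology MeasureTheory
open Pool.Agent.Helper160.Nev

theorem mem_FF {p : ℝ → Prop} (h : volume ({r : ℝ | ¬ p r} ∩ Ici 1) < ⊤) : ∀ᶠ r in FF, p r := by
  unfold FF
  rw [Filter.Eventually, Measure.mem_cofinite]
  refine lt_of_le_of_lt ?_ h
  have : volume.restrict (Ici (1 : ℝ)) {r | p r}ᶜ ≤ volume ({r : ℝ | ¬ p r} ∩ Ici 1) := by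
    rw [Measure.restrict_apply' measurableSet_Ici]
    exact le_of_eq rfl
  exact this

theorem FF_le : FF ≤ atTop := by
  intro s hs
  obtain ⟨a, ha⟩ := mem_atTop_sets.1 hs
  refine mem_FF (p := fun r => r ∈ s) ?_
  refine lt_of_le_of_lt (measure_mono (t := Icc 1 a) ?_) measure_Icc_lt_top
  rintro r ⟨h1, h2⟩
  refine ⟨h2, ?_⟩
  by_contra h3
  exact h1 (ha r (not_le.1 h3).le)

theorem FF_ge_one : ∀ᶠ r in FF, (1 : ℝ) ≤ r := FF_le (eventually_ge_atTop 1)

theorem FF_neBot : FF.NeBot := by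
  rw [neBot_iff]
  intro h
  have h1 : (∅ : Set ℝ) ∈ FF := by rw [h]; exact mem_bot
  unfold FF at h1
  rw [Measure.mem_cofinite, compl_empty, Measure.restrict_apply_univ, Real.volume_Ici] at h1
  exact lt_irrefl _ h1

theorem grow : S_grow := by
  intro T hT K
  refine mem_FF ?_
  -- the bad set
  set E : ℕ → Set ℝ := fun j => {r | 1 ≤ r ∧ 2 ^ j ≤ T r ∧ T r < 2 ^ (j + 1) ∧ 2 * T r < T (r + K / T r)}
    with hE
  have hTtop : Tendsto T atTop atTop := by
    obtain ⟨c, hc, h⟩ := hT.lin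
    exact tendsto_atTop_mono' _ h (tendsto_id.const_mul_atTop hc)
  have hsub : {r : ℝ | ¬ T (r + K / T r) ≤ 2 * T r} ∩ Ici 1 ⊆ ⋃ j, E j := by
    rintro r ⟨h1, h2⟩
    have h2 : (1 : ℝ) ≤ r := h2
    obtain ⟨j, hj1, hj2⟩ := exists_nat_pow_near (hT.one_le r h2) (one_lt_two : (1 : ℝ) < 2)
    exact mem_iUnion.2 ⟨j, h2, hj1, hj2, not_le.1 h1⟩
  have hEj : ∀ j, volume (E j) ≤ ENNReal.ofReal (K * (1 / 2) ^ j) := by
    intro j
    rcases (E j).eq_empty_or_nonempty with h | ⟨r₀, h0⟩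
    · rw [h, measure_empty]; exact bot_le
    set A : Set ℝ := {r | 1 ≤ r ∧ T r < 2 ^ (j + 1)} with hA
    have hbdd : BddAbove A := by
      obtain ⟨a, ha⟩ := (tendsto_atTop_atTop.1 hTtop) (2 ^ (j + 1))
      refine ⟨a, ?_⟩
      rintro r ⟨h1, h2⟩
      by_contra h3
      exact absurd (ha r (not_le.1 h3).le) (not_le.2 h2)
    have hsubI : E j ⊆ Icc (sSup A - K / 2 ^ j) (sSup A) := by
      rintro r ⟨h1, h2, h3, h4⟩
      have hrA : r ∈ A := ⟨h1, h3⟩
      refine ⟨?_, le_csSup hbdd hrA⟩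
      have h5 : sSup A ≤ r + K / 2 ^ j := by
        refine csSup_le ⟨r, hrA⟩ ?_
        rintro s ⟨h6, h7⟩
        by_contra h8
        have h8 := not_le.1 h8
        have h9 : (K : ℝ) / T r ≤ K / 2 ^ j :=
          div_le_div_of_nonneg_left (Nat.cast_nonneg _) (by positivity) h2
        have h10 : r + K / T r ≤ s := by linarith
        have h11 : 0 ≤ (K : ℝ) / T r := div_nonneg (Nat.cast_nonneg _) (by linarith [hT.one_le r h1])
        have h12 := hT.mono (show r + K / T r ∈ Ici (1 : ℝ) by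
          simp only [mem_Ici]; linarith) (show s ∈ Ici (1 : ℝ) from h6) h10
        have h13 : (2 : ℝ) ^ (j + 1) = 2 * 2 ^ j := by ring
        linarith
      linarith
    refine (measure_mono hsubI).trans ?_
    rw [Real.volume_Icc]
    refine ENNReal.ofReal_le_ofReal (le_of_eq ?_)
    rw [one_div, inv_pow]
    ring
  calc volume ({r : ℝ | ¬ T (r + K / T r) ≤ 2 * T r} ∩ Ici 1) ≤ volume (⋃ j, E j) := measure_mono hsub
    _ ≤ ∑' j, volume (E j) := measure_iUnion_le _
    _ ≤ ∑' j, ENNReal.ofReal (K * (1 / 2) ^ j) := ENNReal.tsum_le_tsum hEj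
    _ = ENNReal.ofReal (∑' j : ℕ, K * (1 / 2 : ℝ) ^ j) :=
        (ENNReal.ofReal_tsum_of_nonneg (fun j => by positivity)
          ((summable_geometric_of_lt_one (by norm_num) (by norm_num)).mul_left _)).symm
    _ < ⊤ := ENNReal.ofReal_lt_top

theorem gauge_le (T : ℝ → ℝ) (hT : Gauge T) (A : ℝ) : ∀ᶠ r in FF, A ≤ T r := by
  obtain ⟨c, hc, h⟩ := hT.lin
  have h1 : Tendsto T atTop atTop :=
    tendsto_atTop_mono' _ h (tendsto_id.const_mul_atTop hc)
  exact FF_le (h1.eventually_ge_atTop A)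

theorem basic : S_basic := by
  refine ⟨FF_neBot, FF_le, fun T hT => ⟨fun A ε hε => ?_, gauge_le T hT⟩⟩
  obtain ⟨c, hc, h⟩ := hT.lin
  have hTtop : Tendsto T atTop atTop :=
    tendsto_atTop_mono' _ h (tendsto_id.const_mul_atTop hc)
  -- `log (1 + x) = o(x)`
  have hlog : ∀ η : ℝ, 0 < η → ∀ᶠ x : ℝ in atTop, Real.log (1 + x) ≤ η * x := by
    intro η hη
    have h1 : (fun x : ℝ => Real.log x) =o[atTop] (fun x : ℝ => x) := Real.isLittleO_log_id_atTop
    have h2 := h1.bound (half_pos hη)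
    have h3 : Tendsto (fun x : ℝ => 1 + x) atTop atTop := tendsto_atTop_add_const_left _ _ tendsto_id
    filter_upwards [h3.eventually h2, eventually_ge_atTop (1 : ℝ)] with x h4 h5
    rw [Real.norm_eq_abs, Real.norm_eq_abs, abs_of_nonneg (by linarith : (0 : ℝ) ≤ 1 + x)] at h4
    have h6 := le_abs_self (Real.log (1 + x))
    nlinarith
  set B : ℝ := |A| + 1 with hB
  have hB0 : 0 < B := by positivity
  have e1 := hlog (ε * c / (3 * B)) (by positivity)
  have e2 := hTtop.eventually (hlog (ε / (3 * B)) (by positivity))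
  have e3 := hTtop.eventually_ge_atTop (3 * B / ε)
  refine FF_le ?_
  filter_upwards [e1, e2, e3, h, eventually_ge_atTop (1 : ℝ)] with r h1 h2 h3 h4 h5
  have k1 : B * Real.log (1 + r) ≤ ε / 3 * T r := by
    calc B * Real.log (1 + r) ≤ B * (ε * c / (3 * B) * r) := mul_le_mul_of_nonneg_left h1 hB0.le
      _ = ε / 3 * (c * r) := by field_simp
      _ ≤ ε / 3 * T r := mul_le_mul_of_nonneg_left h4 (by positivity)
  have k2 : B * Real.log (1 + T r) ≤ ε / 3 * T r := by
    calc B * Real.log (1 + T r) ≤ B * (ε / (3 * B) * T r) := mul_le_mul_of_nonneg_left h2 hB0.le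
      _ = ε / 3 * T r := by field_simp
  have k3 : B ≤ ε / 3 * T r := by
    have := (div_le_iff₀ hε).1 h3
    linarith
  have hT1 := hT.one_le r h5
  have l1 : 0 ≤ Real.log (1 + r) := Real.log_nonneg (by linarith)
  have l2 : 0 ≤ Real.log (1 + T r) := Real.log_nonneg (by linarith)
  have hAB : A ≤ B := by
    have := le_abs_self A
    linarith
  calc A * (1 + Real.log (1 + r) + Real.log (1 + T r))
      ≤ B * (1 + Real.log (1 + r) + Real.log (1 + T r)) :=
        mul_le_mul_of_nonneg_right hAB (by positivity)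
    _ = B + B * Real.log (1 + r) + B * Real.log (1 + T r) := by ring
    _ ≤ ε * T r := by linarith

end Pool.Agent.Q72.DS
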