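import Pool.Agent.Q72.DS.Der

/-!
Project DS (helper72): job BOREL.
-/

set_option autoImplicit false

namespace Pool.Agent.Q72.DS

open Complex Metric Real Set Filter Topology MeasureTheory
open Pool.Agent.Helper160.Nev

/-- Products of entire functions. -/
theorem ez {f g : ℂ → ℂ} (hf : Differentiable ℂ f) (hg : Differentiable ℂ g)
    (h : ∀ z, f z * g z = 0) : (∀ z, f z = 0) ∨ (∀ z, g z = 0) := by
  rcases AnalyticOnNhd.eq_zero_or_eq_zero_of_mul_eq_zero (fun z _ => hf.analyticAt z)
    (fun z _ => hg.analyticAt z) (fun z _ => h z) (isPreconnected_univ (α := ℂ)) with h1 | h1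
  · exact Or.inl fun z => h1 z (mem_univ z)
  · exact Or.inr fun z => h1 z (mem_univ z)

/-- If `P Q' = Q P'` and `P` is not zero then `Q` is a multiple of `P`. -/
theorem wronsk {P Q : ℂ → ℂ} (hP : Differentiable ℂ P) (hQ : Differentiable ℂ Q)
    (hne : ∃ z, P z ≠ 0) (h : ∀ z, P z * deriv Q z = Q z * deriv P z) :
    ∃ κ : ℂ, ∀ z, Q z = κ * P z := by
  obtain ⟨z₀, hz₀⟩ := hne
  have h1 : ∀ᶠ z in 𝓝 z₀, P z ≠ 0 := hP.continuous.continuousAt.eventually_ne hz₀
  obtain ⟨ε, hε, h2⟩ := Metric.eventually_nhds_iff_ball.1 h1
  have h3 : ∀ z ∈ ball z₀ ε, Q z / P z = Q z₀ / P z₀ := by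
    intro z hz
    have hd : DifferentiableOn ℂ (fun z => Q z / P z) (ball z₀ ε) :=
      fun w hw => ((hQ w).div (hP w) (h2 w hw)).differentiableWithinAt
    have h4 : (ball z₀ ε).EqOn (deriv fun z => Q z / P z) 0 := by
      intro w hw
      rw [show (fun z => Q z / P z) = Q / P from rfl, deriv_div (hQ w) (hP w) (h2 w hw)]
      have := h w
      simp only [Pi.zero_apply, div_eq_zero_iff]
      left
      linear_combination this
    exact isOpen_ball.is_const_of_deriv_eq_zero (convex_ball z₀ ε).isPreconnected hd h4 hz
      (mem_ball_self hε)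
  refine ⟨Q z₀ / P z₀, fun z => ?_⟩
  have h5 : (fun z => Q z) =ᶠ[𝓝 z₀] fun z => Q z₀ / P z₀ * P z := by
    filter_upwards [ball_mem_nhds z₀ hε] with w hw
    have := h3 w hw
    rw [← this]
    field_simp [h2 w hw]
  have h6 : AnalyticOnNhd ℂ (fun z => Q z) univ := fun z _ => hQ.analyticAt z
  have h7 : AnalyticOnNhd ℂ (fun z => Q z₀ / P z₀ * P z) univ :=
    fun z _ => analyticAt_const.mul (hP.analyticAt z)
  have h8 := h6.eq_of_eventuallyEq h7 h5
  exact congrFun h8 z

theorem borel (h1 : S_div) (h2 : S_der) : S_borel := by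
  intro T hT n
  obtain ⟨r0, r1, r2⟩ := ring T hT
  obtain ⟨d1, d2⟩ := h2 T hT
  induction n with
  | zero => intro c h _ _ _ _ i; exact i.elim0
  | succ n ih =>
    intro c h hc hh hns hrel
    by_cases h0 : ∀ z, c 0 z = 0
    · have h3 : ∀ z, ∑ i : Fin n, c i.succ z * h i.succ z = 0 := by
        intro z
        have := hrel z
        rw [Fin.sum_univ_succ, h0 z, zero_mul, zero_add] at this
        exact this
      have h4 := ih (fun i => c i.succ) (fun i => h i.succ) (fun i => hc i.succ) (fun i => hh i.succ)
        (fun i j hij => hns i.succ j.succ fun h5 => hij (Fin.succ_injective _ h5)) h3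
      intro i
      rcases Fin.eq_zero_or_eq_succ i with rfl | ⟨j, rfl⟩
      · exact h0
      · exact h4 j
    · exfalso
      push Not at h0
      set η : Fin (n + 1) → ℂ → ℂ := fun i => logDeriv (h i) with hη
      have hηs : ∀ i, Sm T (η i) := fun i => d2 _ (hh i)
      have hdh : ∀ i z, deriv (h i) z = η i z * h i z := by
        intro i z
        rw [hη]
        simp only [logDeriv_apply]
        rw [div_mul_cancel₀ _ ((hh i).ne z)]
      -- the derivative of the relation
      have hrel' : ∀ z, ∑ i, (deriv (c i) z + c i z * η i z) * h i z = 0 := by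
        intro z
        have h3 : (fun z => ∑ i, c i z * h i z) = fun _ => 0 := funext hrel
        have h4 : HasDerivAt (fun z => ∑ i, c i z * h i z)
            (∑ i, (deriv (c i) z * h i z + c i z * deriv (h i) z)) z := by
          refine HasDerivAt.fun_sum fun i _ => ?_
          exact ((hc i).diff z).hasDerivAt.mul ((hh i).diff z).hasDerivAt
        rw [h3] at h4
        have h5 := h4.unique (hasDerivAt_const z (0 : ℂ))
        rw [← h5]
        refine Finset.sum_congr rfl fun i _ => ?_
        rw [hdh i z]
        ring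
      set d : Fin n → ℂ → ℂ := fun i z => c 0 z * (deriv (c i.succ) z + c i.succ z * η i.succ z) +
        c i.succ z * ((-1) * (deriv (c 0) z + c 0 z * η 0 z)) with hd
      have hds : ∀ i, Sm T (d i) := by
        intro i
        have e1 : ∀ j, Sm T (fun z => deriv (c j) z + c j z * η j z) := fun j =>
          r1 _ _ (d1 _ (hc j)) (r2 _ _ (hc j) (hηs j))
        exact r1 _ _ (r2 _ _ (hc 0) (e1 i.succ)) (r2 _ _ (hc i.succ) (r2 _ _ (r0 (-1)) (e1 0)))
      have hdrel : ∀ z, ∑ i : Fin n, d i z * h i.succ z = 0 := by
        intro z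
        have e1 := hrel z
        have e2 := hrel' z
        rw [Fin.sum_univ_succ] at e1 e2
        have e3 : ∑ i : Fin n, d i z * h i.succ z =
            c 0 z * (∑ i : Fin n, (deriv (c i.succ) z + c i.succ z * η i.succ z) * h i.succ z) -
            (deriv (c 0) z + c 0 z * η 0 z) * ∑ i : Fin n, c i.succ z * h i.succ z := by
          rw [Finset.mul_sum, Finset.mul_sum, ← Finset.sum_sub_distrib]
          refine Finset.sum_congr rfl fun i _ => ?_
          rw [hd]
          ring
        rw [e3]
        linear_combination c 0 z * e2 - (deriv (c 0) z + c 0 z * η 0 z) * e1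
      have hd0 := ih d (fun i => h i.succ) hds (fun i => hh i.succ)
        (fun i j hij => hns i.succ j.succ fun h5 => hij (Fin.succ_injective _ h5)) hdrel
      -- some other coefficient is not zero
      by_cases hall : ∀ (i : Fin n) z, c i.succ z = 0
      · obtain ⟨z, hz⟩ := h0
        have e1 := hrel z
        rw [Fin.sum_univ_succ] at e1
        have e2 : ∑ i : Fin n, c i.succ z * h i.succ z = 0 :=
          Finset.sum_eq_zero fun i _ => by rw [hall i z, zero_mul]
        rw [e2, add_zero, mul_eq_zero] at e1
        exact e1.elim hz ((hh 0).ne z)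
      · push Not at hall
        obtain ⟨i, w, hw⟩ := hall
        have hP : Differentiable ℂ (fun z => c 0 z * h 0 z) := (hc 0).diff.mul (hh 0).diff
        have hQ : Differentiable ℂ (fun z => c i.succ z * h i.succ z) :=
          (hc i.succ).diff.mul (hh i.succ).diff
        have hPne : ∃ z, c 0 z * h 0 z ≠ 0 := by
          obtain ⟨z, hz⟩ := h0
          exact ⟨z, mul_ne_zero hz ((hh 0).ne z)⟩
        have hder : ∀ j z, deriv (fun z => c j z * h j z) z =
            (deriv (c j) z + c j z * η j z) * h j z := by
          intro j z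
          have := (((hc j).diff z).hasDerivAt.mul ((hh j).diff z).hasDerivAt).deriv
          have e : (fun z => c j z * h j z) = c j * h j := rfl
          rw [e, this, hdh j z]
          ring
        obtain ⟨κ, hκ⟩ := wronsk hP hQ hPne (by
          intro z
          rw [hder, hder]
          have := hd0 i z
          simp only [hd] at this
          linear_combination h 0 z * h i.succ z * this)
        have hκ0 : κ ≠ 0 := by
          rintro rfl
          have := hκ w
          rw [zero_mul] at this
          exact (mul_ne_zero hw ((hh i.succ).ne w)) this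
        refine hns i.succ 0 (Fin.succ_ne_zero i) ?_
        refine h1 T hT (fun z => κ * c 0 z) (c i.succ) _ (r2 _ _ (r0 κ) (hc 0)) (hc i.succ) ⟨w, hw⟩
          ((hh i.succ).diff.mul ((hh 0).diff.inv (hh 0).ne)) fun z => ?_
        have := hκ z
        have h9 := (hh 0).ne z
        field_simp
        linear_combination this

/-- Borel's theorem for an arbitrary finite index type. -/
theorem borel_fintype (hb : S_borel) {T : ℝ → ℝ} (hT : Gauge T) {ι : Type*} [Fintype ι]
    (c h : ι → ℂ → ℂ) (hc : ∀ i, Sm T (c i)) (hh : ∀ i, Un T (h i))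
    (hns : ∀ i j, i ≠ j → ¬ Sm T (fun z => h i z * (h j z)⁻¹))
    (hrel : ∀ z, ∑ i, c i z * h i z = 0) : ∀ i z, c i z = 0 := by
  classical
  set e := Fintype.equivFin ι with he
  have h1 := hb T hT (Fintype.card ι) (fun i => c (e.symm i)) (fun i => h (e.symm i))
    (fun i => hc _) (fun i => hh _) (fun i j hij => hns _ _ fun h => hij (e.symm.injective h))
    (fun z => by
      rw [← hrel z]
      exact e.symm.sum_comp (fun i => c i z * h i z))
  intro i z
  have := h1 (e i) z
  rwa [e.symm_apply_apply] at this

end Pool.Agent.Q72.DS
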