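import Pool.Agent.Q72.DS.Mono

/-!
Project DS (helper72): jobs LDL and LIN.
-/

set_option autoImplicit false

namespace Pool.Agent.Q72.DS

open Complex Metric Real Set Filter Topology MeasureTheory MeromorphicOn
open Pool.Agent.Helper160.Nev

theorem order_ne_top {c : ℂ → ℂ} (hc : Differentiable ℂ c) (hne : ∃ z, c z ≠ 0) (u : ℂ) :
    meromorphicOrderAt c u ≠ ⊤ := by
  intro h
  rw [meromorphicOrderAt_eq_top_iff] at h
  obtain ⟨z, hz⟩ := hne
  apply hz
  have h1 : AnalyticOnNhd ℂ c univ := fun z _ => hc.analyticAt z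
  have h2 := h1.eqOn_zero_of_preconnected_of_frequently_eq_zero isPreconnected_univ (mem_univ u)
    h.frequently
  exact h2 (mem_univ z)

theorem avg_abs_log_eq {c : ℂ → ℂ} (hc : Differentiable ℂ c) (r : ℝ) :
    circleAverage (fun z => |Real.log ‖c z‖|) 0 r = proxInf c r + proxInf (fun z => (c z)⁻¹) r := by
  rw [proxInf, proxInf, ← circleAverage_fun_add (ci_ent hc) (ci_ent_inv hc)]
  congr 1
  funext z
  rw [norm_inv, posLog_apply, posLog_apply, Real.log_inv]
  rcases le_total 0 (Real.log ‖c z‖) with h | h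
  · rw [abs_of_nonneg h, max_eq_right h, max_eq_left (by linarith)]; ring
  · rw [abs_of_nonpos h, max_eq_left h, max_eq_right (by linarith)]; ring

theorem good_radius {c : ℂ → ℂ} (hc : Differentiable ℂ c) (hne : ∃ z, c z ≠ 0) {a b : ℝ}
    (hab : a < b) : ∃ ρ ∈ Ioo a b, ∀ u ∈ sphere (0 : ℂ) ρ, meromorphicOrderAt c u = 0 := by
  have hfin : (norm '' (zp c b)).Finite := (zp_finite (mer_of_diff hc _)).image _
  obtain ⟨ρ, hR1, hR2⟩ := (Set.Ioo_infinite hab).exists_notMem_finite hfin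
  refine ⟨ρ, hR1, fun u hu => ?_⟩
  rw [mem_sphere_zero_iff_norm] at hu
  by_contra h
  apply hR2
  refine ⟨u, ⟨?_, ?_⟩, hu⟩
  · rw [mem_closedBall_zero_iff, hu]
    exact hR1.2.le
  · obtain ⟨n, hn⟩ := WithTop.ne_top_iff_exists.1 (order_ne_top hc hne u)
    intro h4
    apply h
    rw [← hn] at h4 ⊢
    simp only [WithTop.untop₀_coe] at h4
    rw [h4]
    rfl

theorem number_bound {c : ℂ → ℂ} (hc : Differentiable ℂ c) (hne : ∃ z, c z ≠ 0) :
    ∃ K : ℝ, 0 ≤ K ∧ ∀ ρ R : ℝ, 1 ≤ ρ → ρ < R → ∀ h1 : MeromorphicOn c (closedBall 0 ρ),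
      (∑ u ∈ (divisor_ball_support_finite h1).toFinset, |(divisor c (ball 0 ρ) u : ℝ)|) *
        ((R - ρ) / R) ≤ proxInf c R + K := by
  refine ⟨|Real.log ‖meromorphicTrailingCoeffAt c 0‖| + |(zeroMult c 0 : ℝ) * Real.log 2|,
    by positivity, fun ρ R hρ hR h1 => ?_⟩
  have hR0 : 0 < R := by linarith
  have hF := zp_finite (mer_of_diff hc (closedBall 0 R))
  set G := (divisor_ball_support_finite h1).toFinset with hG
  have hGsub : ∀ z ∈ G, z ∈ ball (0 : ℂ) ρ := by
    intro u hu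
    rw [hG, Set.Finite.mem_toFinset] at hu
    exact (divisor c (ball 0 ρ)).supportWithinDomain hu
  have e1 := sum_mul_log_le (μ := zeroMult c) (by linarith : 1 / 2 ≤ ρ) hR hF.toFinset G
      (fun z hz => ((Set.Finite.mem_toFinset hF).1 hz).1)
      (fun z hz h => (Set.Finite.mem_toFinset hF).2 (zeroMult_mem z hz h)) (zeroMult_nonneg c) hGsub
  have e5 : ∑ u ∈ G, |(divisor c (ball 0 ρ) u : ℝ)| = ∑ u ∈ G, (zeroMult c u : ℝ) := by
    apply Finset.sum_congr rfl
    intro u hu
    have h1' : MeromorphicOn c (ball 0 ρ) := h1.mono_set ball_subset_closedBall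
    rw [divisor_apply h1' (hGsub u hu)]
    have h2 := zero_add_pole c u
    rw [poleMult_eq_zero (hc.analyticAt u).meromorphicOrderAt_nonneg, add_zero] at h2
    rw [h2]
    push_cast
    rfl
  have hnn : 0 ≤ ∑ u ∈ G, (zeroMult c u : ℝ) :=
    Finset.sum_nonneg fun u _ => by exact_mod_cast zeroMult_nonneg c u
  have e6 : (R - ρ) / R ≤ Real.log (R / ρ) := by
    have h6 := Real.one_sub_inv_le_log_of_pos (x := R / ρ) (by positivity)
    rw [inv_div] at h6
    have : (R - ρ) / R = 1 - ρ / R := by field_simp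
    linarith
  have e7 := avg_log_ge hc (by linarith : 1 ≤ R)
  have e8 := avg_log_eq hc R
  have e9 := prox_nonneg (fun z => (c z)⁻¹) R
  have e10 := neg_abs_le (Real.log ‖meromorphicTrailingCoeffAt c 0‖)
  have e11 := le_abs_self ((zeroMult c 0 : ℝ) * Real.log 2)
  rw [e5]
  calc (∑ u ∈ G, (zeroMult c u : ℝ)) * ((R - ρ) / R)
      ≤ (∑ u ∈ G, (zeroMult c u : ℝ)) * Real.log (R / ρ) := mul_le_mul_of_nonneg_left e6 hnn
    _ ≤ _ := by linarith

theorem ldl : S_ldl := by
  intro c hc hne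
  obtain ⟨K₀', hK₀'⟩ := jen c hc hne
  obtain ⟨K₁, hK₁0, hK₁⟩ := number_bound hc hne
  obtain ⟨C, hC0, hC⟩ := exists_const (α := 1 / 2) (by norm_num) (by norm_num)
  set K₀ : ℝ := |K₀'| with hK₀
  have hK₀0 : 0 ≤ K₀ := abs_nonneg _
  set A : ℝ := 2 + (16 + 8 * K₀) + 4 * C * (1 + K₁) with hA
  have hA1 : 1 ≤ A := by
    have : 0 ≤ 4 * C * (1 + K₁) := by positivity
    linarith
  have hlA : 0 ≤ Real.log A := Real.log_nonneg hA1
  refine ⟨2 * (Real.log A + 1), by positivity, fun r R hr hrR => ?_⟩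
  obtain ⟨ρ, hρ, hord⟩ := good_radius hc hne
    (show (3 * r + R) / 4 < (r + R) / 2 by linarith)
  have hρ1 := hρ.1
  have hρ2 := hρ.2
  have hrρ : r < ρ := by linarith
  have hρR : ρ < R := by linarith
  have hρ0 : 0 < ρ := by linarith
  have hR0 : 0 < R := by linarith
  have hd0 : 0 < R - r := by linarith
  have h := avg_log_sum {()} (fun _ : Unit => c) (α := 1 / 2) (C := C) (r := r) (R := ρ)
    (by linarith) hrρ (by norm_num) (by norm_num) (fun _ => mer_of_diff hc _)
    (fun _ _ u _ => order_ne_top hc hne u) (fun _ _ u hu => hord u hu) hC0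
    (fun u => hC r (by linarith) u)
  simp only [Finset.sum_singleton] at h
  change proxInf (logDeriv c) r ≤ _ at h
  have hM := prox_nonneg c R
  set M := proxInf c R with hMdef
  have hmono : proxInf c ρ ≤ M := mono c hc ρ R hρ0 hρR.le
  have a1 : circleAverage (fun ζ => |Real.log ‖c ζ‖|) 0 ρ ≤ 2 * M + K₀ := by
    rw [avg_abs_log_eq hc]
    have := hK₀' ρ (by linarith)
    have := le_abs_self K₀'
    linarith
  have a1' : 0 ≤ circleAverage (fun ζ => |Real.log ‖c ζ‖|) 0 ρ :=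
    circleAverage_nonneg_of_nonneg fun _ _ => abs_nonneg _
  have a2 : 2 * ρ / (ρ ^ 2 - r ^ 2) ≤ 8 / (R - r) := by
    rw [div_le_div_iff₀ (by nlinarith) hd0]
    nlinarith [mul_nonneg (by linarith : (0:ℝ) ≤ ρ - r) (by linarith : (0:ℝ) ≤ ρ),
      mul_nonneg (by linarith : (0:ℝ) ≤ ρ - r) (by linarith : (0:ℝ) ≤ r)]
  have a3 := hK₁ ρ R (by linarith) hρR (mer_of_diff hc _)
  set N := ∑ u ∈ (divisor_ball_support_finite (mer_of_diff hc (closedBall 0 ρ))).toFinset,
    |(divisor c (ball 0 ρ) u : ℝ)| with hN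
  have hN0 : 0 ≤ N := Finset.sum_nonneg fun _ _ => abs_nonneg _
  have a4 : N ≤ 2 * R / (R - r) * (M + K₁) := by
    have h1 : (R - r) / (2 * R) ≤ (R - ρ) / R := by
      rw [div_le_div_iff₀ (by positivity) hR0]
      nlinarith
    have h2 : N * ((R - r) / (2 * R)) ≤ M + K₁ := (mul_le_mul_of_nonneg_left h1 hN0).trans a3
    calc N = 2 * R / (R - r) * (N * ((R - r) / (2 * R))) := by field_simp
      _ ≤ 2 * R / (R - r) * (M + K₁) := mul_le_mul_of_nonneg_left h2 (by positivity)
  rw [← Finset.sum_mul] at h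
  rw [← hN] at h
  set x := 1 / (R - r) with hx
  have hx0 : 0 ≤ x := by positivity
  have b1 : 2 * ρ / (ρ ^ 2 - r ^ 2) * circleAverage (fun ζ => |Real.log ‖c ζ‖|) 0 ρ ≤
      8 * x * (2 * M + K₀) := by
    have e : 8 * x = 8 / (R - r) := by rw [hx]; ring
    rw [e]
    exact mul_le_mul a2 a1 a1' (by positivity)
  have b2 : N * (2 * C) ≤ 4 * C * (R * x * (M + K₁)) := by
    have e : 2 * R / (R - r) = 2 * (R * x) := by rw [hx]; ring
    rw [e] at a4
    nlinarith
  have b3 : 1 + (1 + 2 * ρ / (ρ ^ 2 - r ^ 2) * circleAverage (fun ζ => |Real.log ‖c ζ‖|) 0 ρ +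
      N * (2 * C)) ≤ A * ((1 + M) * (1 + R) * (1 + x)) := by
    have q1 : 1 ≤ (1 + M) * (1 + R) * (1 + x) := by
      have : 1 ≤ (1 + M) * (1 + R) := by nlinarith
      nlinarith
    have q2 : x * (2 * M + K₀) ≤ (2 + K₀) * ((1 + M) * (1 + R) * (1 + x)) := by
      have s1 : 2 * M + K₀ ≤ (2 + K₀) * (1 + M) := by nlinarith
      have s2 : x ≤ (1 + R) * (1 + x) := by nlinarith [mul_nonneg hR0.le hx0]
      calc x * (2 * M + K₀) ≤ ((1 + R) * (1 + x)) * ((2 + K₀) * (1 + M)) :=
            mul_le_mul s2 s1 (by positivity) (by positivity)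
        _ = _ := by ring
    have q3 : R * x * (M + K₁) ≤ (1 + K₁) * ((1 + M) * (1 + R) * (1 + x)) := by
      have s1 : M + K₁ ≤ (1 + K₁) * (1 + M) := by nlinarith [mul_nonneg hK₁0 hM]
      have s2 : R * x ≤ (1 + R) * (1 + x) := by nlinarith [mul_nonneg hR0.le hx0]
      calc R * x * (M + K₁) ≤ ((1 + R) * (1 + x)) * ((1 + K₁) * (1 + M)) :=
            mul_le_mul s2 s1 (by positivity) (by positivity)
        _ = _ := by ring
    have q4 : 4 * C * (R * x * (M + K₁)) ≤ 4 * C * ((1 + K₁) * ((1 + M) * (1 + R) * (1 + x))) :=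
      mul_le_mul_of_nonneg_left q3 (by positivity)
    rw [hA]
    nlinarith
  have b4 : 0 < 1 + (1 + 2 * ρ / (ρ ^ 2 - r ^ 2) *
      circleAverage (fun ζ => |Real.log ‖c ζ‖|) 0 ρ + N * (2 * C)) := by
    have s1 : 0 < ρ ^ 2 - r ^ 2 := by nlinarith
    positivity
  have b5 := Real.log_le_log b4 b3
  have b6 : Real.log (A * ((1 + M) * (1 + R) * (1 + x))) =
      Real.log A + (Real.log (1 + M) + Real.log (1 + R) + Real.log (1 + x)) := by
    rw [Real.log_mul (by positivity) (by positivity), Real.log_mul (by positivity) (by positivity),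
      Real.log_mul (by positivity) (by positivity)]
  have l1 : 0 ≤ Real.log (1 + M) := Real.log_nonneg (by linarith)
  have l2 : 0 ≤ Real.log (1 + R) := Real.log_nonneg (by linarith)
  have l3 : 0 ≤ Real.log (1 + x) := Real.log_nonneg (by linarith)
  rw [b6] at b5
  have b7 : (1 : ℝ) / (1 / 2) = 2 := by norm_num
  rw [b7] at h
  calc proxInf (logDeriv c) r ≤ 2 * (Real.log A +
        (Real.log (1 + M) + Real.log (1 + R) + Real.log (1 + x))) := by linarith
    _ ≤ 2 * (Real.log A + 1) * (1 + Real.log (1 + M) + Real.log (1 + R) + Real.log (1 + x)) := by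
        nlinarith [mul_nonneg hlA l1, mul_nonneg hlA l2, mul_nonneg hlA l3]

theorem lin : S_lin := by
  intro u hu hne hnc
  obtain ⟨K, hK⟩ := jen u hu ⟨0, hne 0⟩
  -- a point with `u'/u ≠ 0`
  obtain ⟨w, hw⟩ : ∃ w, logDeriv u w ≠ 0 := by
    by_contra h
    push Not at h
    obtain ⟨z, hz⟩ := hnc
    apply hz
    refine is_const_of_deriv_eq_zero hu (fun x => ?_) z 0
    have := h x
    rw [logDeriv_apply, div_eq_zero_iff] at this
    exact this.resolve_right (hne x)
  set a := ‖logDeriv u w‖ with ha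
  have ha0 : 0 < a := norm_pos_iff.2 hw
  refine ⟨a / 32, by positivity, ?_⟩
  filter_upwards [eventually_ge_atTop (1 : ℝ), eventually_gt_atTop (2 * ‖w‖),
    eventually_ge_atTop (16 * |K| / a)] with R h1 h2 h3
  have hR0 : 0 < R := by linarith
  have hwR : w ∈ ball (0 : ℂ) R := by
    rw [mem_ball_zero_iff]
    linarith [norm_nonneg w]
  have h4 := norm_logDeriv_le_of_analytic (fun z _ => hu.analyticAt z) (fun z _ => hne z) hwR
  have h5 : circleAverage (fun ζ => 2 * R / ‖ζ - w‖ ^ 2 * |Real.log ‖u ζ‖|) 0 R ≤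
      circleAverage (fun ζ => 8 / R * |Real.log ‖u ζ‖|) 0 R := by
    have hl : Continuous fun ζ => |Real.log ‖u ζ‖| :=
      (Continuous.log hu.continuous.norm fun z => norm_ne_zero_iff.2 (hne z)).abs
    refine circleAverage_mono ?_ ?_ ?_
    · apply ContinuousOn.circleIntegrable'
      refine ContinuousOn.mul (ContinuousOn.div continuousOn_const
        ((continuous_id.sub continuous_const).norm.pow 2).continuousOn ?_) hl.continuousOn
      intro ζ hζ h6
      rw [mem_sphere_zero_iff_norm, abs_of_pos hR0] at hζ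
      have h7 : ζ - w = 0 := by simpa using h6
      rw [mem_ball_zero_iff] at hwR
      rw [sub_eq_zero] at h7
      rw [h7] at hζ
      linarith
    · exact (continuous_const.mul hl).continuousOn.circleIntegrable'
    · intro ζ hζ
      rw [mem_sphere_zero_iff_norm, abs_of_pos hR0] at hζ
      refine mul_le_mul_of_nonneg_right ?_ (abs_nonneg _)
      have h6 : R / 2 ≤ ‖ζ - w‖ := by
        have := norm_sub_norm_le ζ w
        linarith
      have h7 : 0 < ‖ζ - w‖ := by linarith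
      rw [div_le_div_iff₀ (by positivity) hR0]
      nlinarith [mul_self_le_mul_self (by positivity : 0 ≤ R / 2) h6]
  rw [ca_const_mul, avg_abs_log_eq hu] at h5
  have h6 := hK R h1
  have h7 : a ≤ 8 / R * (2 * proxInf u R + K) := by
    refine (h4.trans h5).trans (mul_le_mul_of_nonneg_left ?_ (by positivity))
    linarith
  have h8 : a * R ≤ 8 * (2 * proxInf u R + K) := by
    have := mul_le_mul_of_nonneg_right h7 hR0.le
    have e : 8 / R * (2 * proxInf u R + K) * R = 8 * (2 * proxInf u R + K) := by field_simp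
    linarith
  have h9 : 16 * |K| ≤ R * a := (div_le_iff₀ ha0).1 h3
  have h10 := le_abs_self K
  linarith

end Pool.Agent.Q72.DS
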