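import Pool.Agent.Q72.DS.Idm
import Pool.Agent.Q72.DS.Ldl

/-!
Project DS (helper72): the theorem for entire functions.
-/

set_option autoImplicit false

namespace Pool.Agent.Q72.DS

open Complex Metric Real Set Filter Topology MeasureTheory
open Pool.Agent.Helper160.Nev

/-- The gauge. -/
noncomputable def gg (u v u₁ v₁ : ℂ → ℂ) (r : ℝ) : ℝ :=
  1 + (proxInf u r + proxInf v r + proxInf u₁ r + proxInf v₁ r)

theorem gg_gauge {u v u₁ v₁ : ℂ → ℂ} (hu : Differentiable ℂ u) (hv : Differentiable ℂ v)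
    (hu₁ : Differentiable ℂ u₁) (hv₁ : Differentiable ℂ v₁)
    (hune : ∀ z, u z ≠ 0) (hvne : ∀ z, v z ≠ 0)
    (hnc : (∃ z, u z ≠ u 0) ∨ (∃ z, v z ≠ v 0)) : Gauge (gg u v u₁ v₁) := by
  refine ⟨?_, ?_, ?_⟩
  · intro r hr R hR hrR
    have h0 : 0 < r := lt_of_lt_of_le one_pos hr
    have h1 := mono u hu r R h0 hrR
    have h2 := mono v hv r R h0 hrR
    have h3 := mono u₁ hu₁ r R h0 hrR
    have h4 := mono v₁ hv₁ r R h0 hrR
    unfold gg
    linarith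
  · intro r _
    have h1 := prox_nonneg u r
    have h2 := prox_nonneg v r
    have h3 := prox_nonneg u₁ r
    have h4 := prox_nonneg v₁ r
    unfold gg
    linarith
  · rcases hnc with h | h
    · obtain ⟨c, hc, h5⟩ := lin u hu hune h
      refine ⟨c, hc, ?_⟩
      filter_upwards [h5] with r hr
      have h2 := prox_nonneg v r
      have h3 := prox_nonneg u₁ r
      have h4 := prox_nonneg v₁ r
      unfold gg
      linarith
    · obtain ⟨c, hc, h5⟩ := lin v hv hvne h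
      refine ⟨c, hc, ?_⟩
      filter_upwards [h5] with r hr
      have h2 := prox_nonneg u r
      have h3 := prox_nonneg u₁ r
      have h4 := prox_nonneg v₁ r
      unfold gg
      linarith

theorem tame_le {T : ℝ → ℝ} (hT : Gauge T) {c : ℂ → ℂ} (h : ∀ r, proxInf c r ≤ T r) : Tame T c := by
  intro K
  refine ⟨2, ?_⟩
  filter_upwards [grow T hT K, gauge_le T hT 2] with r h1 h2
  calc proxInf c (r + K / T r) ≤ T (r + K / T r) := h _
    _ ≤ 2 * T r := h1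
    _ ≤ T r ^ 2 := by nlinarith

/-- Case A: the algebra after the identity `v = (u / v) ^ n`. -/
theorem power_case {F G X : ℂ → ℂ} {κ ε : ℂ} {N : ℕ} {c : ℂ} (hX : Differentiable ℂ X)
    (hX0 : ∀ z, X z ≠ 0) (hε : ε ≠ 0)
    (hF : ∀ z, F z = κ + ε * ∑ j ∈ Finset.Icc 1 N, X z ^ j)
    (hG : ∀ z, G z = κ + ε * ∑ j ∈ Finset.Icc 1 N, (X z)⁻¹ ^ j)
    (hFG : ∀ z, deriv G z = F (z + c) - F z) (z : ℂ) :
    ∑ j ∈ Finset.Icc 1 N, X z ^ j
      - ∑ j ∈ Finset.Icc 1 N, (j : ℂ) * logDeriv X z * (X z)⁻¹ ^ j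
      - ∑ j ∈ Finset.Icc 1 N, X (z + c) ^ j = 0 := by
  have h1 : HasDerivAt G (ε * ∑ j ∈ Finset.Icc 1 N, (-((j : ℂ) * logDeriv X z * (X z)⁻¹ ^ j))) z := by
    have h2 : G = fun z => κ + ε * ∑ j ∈ Finset.Icc 1 N, (X z)⁻¹ ^ j := funext hG
    rw [h2]
    refine HasDerivAt.const_add _ (HasDerivAt.const_mul _ (HasDerivAt.fun_sum fun j hj => ?_))
    have h3 := ((hX z).hasDerivAt.inv (hX0 z)).pow j
    have hj1 : 1 ≤ j := (Finset.mem_Icc.1 hj).1
    obtain ⟨i, rfl⟩ : ∃ i, j = i + 1 := ⟨j - 1, by omega⟩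
    refine h3.congr_deriv ?_
    rw [logDeriv_apply]
    simp only [Nat.add_sub_cancel]
    change _ * (X z)⁻¹ ^ i * _ = _
    ring
  have h4 := hFG z
  rw [h1.deriv, hF, hF, Finset.sum_neg_distrib] at h4
  have h5 : ε * (∑ j ∈ Finset.Icc 1 N, X z ^ j
      - ∑ j ∈ Finset.Icc 1 N, (j : ℂ) * logDeriv X z * (X z)⁻¹ ^ j
      - ∑ j ∈ Finset.Icc 1 N, X (z + c) ^ j) = 0 := by linear_combination h4
  exact (mul_eq_zero.1 h5).resolve_left hε

theorem sum_fin_eq (N : ℕ) (g : ℕ → ℂ) :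
    ∑ i : Fin N, g (i + 1) = ∑ j ∈ Finset.Icc 1 N, g j := by
  rw [Fin.sum_univ_eq_sum_range (fun i => g (i + 1)) N]
  induction N with
  | zero => simp
  | succ N ih => rw [Finset.sum_range_succ, ih, Finset.sum_Icc_succ_top (by omega)]

theorem dot_nsmul (l f : Fin 4 → ℤ) (n : ℕ) : dot l (n • f) = dot l f * n := by
  unfold dot
  rw [Finset.sum_mul]
  refine Finset.sum_congr rfl fun k _ => ?_
  rw [Pi.smul_apply, nsmul_eq_mul]
  ring

theorem dot_neg (l f : Fin 4 → ℤ) : dot l (-f) = -dot l f := by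
  unfold dot
  rw [← Finset.sum_neg_distrib]
  refine Finset.sum_congr rfl fun k _ => ?_
  rw [Pi.neg_apply]
  ring

/-- Case A: the contradiction. -/
theorem caseA_end (hC : S_algC) {T : ℝ → ℝ} (hT : Gauge T) {b : Fin 4 → ℂ → ℂ} {l : Fin 4 → ℤ}
    (hs : Scale T b l) {X : ℂ → ℂ} {c : ℂ} (hX0 : ∀ z, X z ≠ 0) {f0 f1 : Fin 4 → ℤ}
    (h0 : ∀ z, X z = mon b f0 z) (h1 : ∀ z, X (z + c) = mon b f1 z) (hl : dot l f0 ≠ 0) {N : ℕ}
    (hN : 0 < N) (hω : Sm T (logDeriv X)) (hne : ∃ z, logDeriv X z ≠ 0)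
    (hrel : ∀ z, ∑ j ∈ Finset.Icc 1 N, X z ^ j
      - ∑ j ∈ Finset.Icc 1 N, (j : ℂ) * logDeriv X z * (X z)⁻¹ ^ j
      - ∑ j ∈ Finset.Icc 1 N, X (z + c) ^ j = 0) : False := by
  obtain ⟨z₀, hz₀⟩ := hne
  obtain ⟨r0, r1, r2⟩ := ring T hT
  refine hC.1 (X z₀) (X (z₀ + c)) (logDeriv X z₀) N (dot l f0) (dot l f1) (hX0 _) (hX0 _) hz₀ hN hl
    fun t ht => ?_
  have e1 : ∀ z, ∑ i : Fin N, (1 : ℂ) * mon b ((i.1 + 1) • f0) z =
      ∑ j ∈ Finset.Icc 1 N, X z ^ j := by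
    intro z
    rw [← sum_fin_eq N fun j => X z ^ j]
    refine Finset.sum_congr rfl fun i _ => ?_
    rw [mon_nsmul, h0, one_mul]
  have e2 : ∀ z, ∑ i : Fin N, ((-((i.1 + 1 : ℕ) : ℂ)) * logDeriv X z) *
      mon b (-((i.1 + 1) • f0)) z =
      -∑ j ∈ Finset.Icc 1 N, (j : ℂ) * logDeriv X z * (X z)⁻¹ ^ j := by
    intro z
    rw [← sum_fin_eq N fun j => (j : ℂ) * logDeriv X z * (X z)⁻¹ ^ j, ← Finset.sum_neg_distrib]
    refine Finset.sum_congr rfl fun i _ => ?_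
    rw [mon_neg, mon_nsmul, h0, inv_pow]
    ring
  have e3 : ∀ z, ∑ i : Fin N, (-1 : ℂ) * mon b ((i.1 + 1) • f1) z =
      -∑ j ∈ Finset.Icc 1 N, X (z + c) ^ j := by
    intro z
    rw [← sum_fin_eq N fun j => X (z + c) ^ j, ← Finset.sum_neg_distrib]
    refine Finset.sum_congr rfl fun i _ => ?_
    rw [mon_nsmul, h1]
    ring
  have h := scale_fintype hs (ι := Fin N ⊕ (Fin N ⊕ Fin N))
    (Sum.elim (fun i => (i.1 + 1) • f0)
      (Sum.elim (fun i => -((i.1 + 1) • f0)) (fun i => (i.1 + 1) • f1)))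
    (Sum.elim (fun _ _ => (1 : ℂ))
      (Sum.elim (fun i z => (-((i.1 + 1 : ℕ) : ℂ)) * logDeriv X z) (fun _ _ => (-1 : ℂ))))
    (by
      rintro (i | i | i)
      · exact r0 1
      · exact r2 _ _ (r0 _) hω
      · exact r0 (-1)) (by
      intro z
      simp only [Fintype.sum_sum_type, Sum.elim_inl, Sum.elim_inr]
      rw [e1, e2, e3]
      have := hrel z
      linear_combination this) ht z₀
  simp only [Fintype.sum_sum_type, Sum.elim_inl, Sum.elim_inr] at h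
  have g1 : ∑ i : Fin N, (1 : ℂ) * (t ^ dot l ((i.1 + 1) • f0) * mon b ((i.1 + 1) • f0) z₀) =
      ∑ j ∈ Finset.Icc 1 N, (t ^ dot l f0 * X z₀) ^ j := by
    rw [← sum_fin_eq N fun j => (t ^ dot l f0 * X z₀) ^ j]
    refine Finset.sum_congr rfl fun i _ => ?_
    rw [mon_nsmul, ← h0, one_mul, dot_nsmul, zpow_mul, zpow_natCast, mul_pow]
  have g2 : ∑ i : Fin N, ((-((i.1 + 1 : ℕ) : ℂ)) * logDeriv X z₀) *
      (t ^ dot l (-((i.1 + 1) • f0)) * mon b (-((i.1 + 1) • f0)) z₀) =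
      -∑ j ∈ Finset.Icc 1 N, (j : ℂ) * logDeriv X z₀ * (t ^ dot l f0 * X z₀)⁻¹ ^ j := by
    rw [← sum_fin_eq N fun j => (j : ℂ) * logDeriv X z₀ * (t ^ dot l f0 * X z₀)⁻¹ ^ j,
      ← Finset.sum_neg_distrib]
    refine Finset.sum_congr rfl fun i _ => ?_
    rw [mon_neg, mon_nsmul, ← h0, dot_neg, dot_nsmul, zpow_neg, zpow_mul, zpow_natCast,
      inv_pow, mul_pow, mul_inv]
    ring
  have g3 : ∑ i : Fin N, (-1 : ℂ) * (t ^ dot l ((i.1 + 1) • f1) * mon b ((i.1 + 1) • f1) z₀) =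
      -∑ j ∈ Finset.Icc 1 N, (t ^ dot l f1 * X (z₀ + c)) ^ j := by
    rw [← sum_fin_eq N fun j => (t ^ dot l f1 * X (z₀ + c)) ^ j, ← Finset.sum_neg_distrib]
    refine Finset.sum_congr rfl fun i _ => ?_
    rw [mon_nsmul, ← h1, dot_nsmul, zpow_mul, zpow_natCast, mul_pow]
    ring
  rw [g1, g2, g3] at h
  linear_combination h

theorem geo_inv {x : ℂ} (hx : x ≠ 0) (N : ℕ) :
    (x - 1) * ∑ j ∈ Finset.Icc 1 N, x⁻¹ ^ j = 1 - x⁻¹ ^ N := by
  induction N with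
  | zero => simp
  | succ N ih =>
    rw [Finset.sum_Icc_succ_top (by omega), mul_add, ih, pow_succ]
    have : x * x⁻¹ = 1 := mul_inv_cancel₀ hx
    linear_combination x⁻¹ ^ N * this

theorem geo (x : ℂ) (N : ℕ) :
    (x - 1) * ∑ j ∈ Finset.Icc 1 N, x ^ j = x ^ (N + 1) - x := by
  induction N with
  | zero => simp
  | succ N ih =>
    rw [Finset.sum_Icc_succ_top (by omega), mul_add, ih]
    ring

end Pool.Agent.Q72.DS
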