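import Pool.Agent.Q72.DS.Ring

/-!
Project DS (helper72): job DER.
-/

set_option autoImplicit false

namespace Pool.Agent.Q72.DS

open Complex Metric Real Set Filter Topology MeasureTheory
open Pool.Agent.Helper160.Nev

theorem codis_ne {c : ℂ → ℂ} (hc : Differentiable ℂ c) (h : ∃ z, c z ≠ 0) :
    ∀ᶠ z in codiscrete ℂ, c z ≠ 0 := by
  obtain ⟨x, hx⟩ := h
  exact AnalyticOnNhd.preimage_zero_mem_codiscrete (fun z _ => hc.analyticAt z) hx

theorem mer_logDeriv {c : ℂ → ℂ} (hc : Differentiable ℂ c) : MeromorphicOn (logDeriv c) univ :=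
  fun z _ => ((hc.analyticAt z).meromorphicAt.deriv).div (hc.analyticAt z).meromorphicAt

theorem diff_deriv {c : ℂ → ℂ} (hc : Differentiable ℂ c) : Differentiable ℂ (deriv c) :=
  fun z => (hc.analyticAt z).deriv.differentiableAt

theorem der_bound (h1 : S_ldl) {T : ℝ → ℝ} (hT : Gauge T) {c : ℂ → ℂ} (hc : Differentiable ℂ c)
    (hne : ∃ z, c z ≠ 0) (ht : Tame T c) (K : ℕ) : ∃ A : ℝ, ∀ᶠ r in FF,
      proxInf (logDeriv c) (r + K / T r) ≤ A * (1 + Real.log (1 + r) + Real.log (1 + T r)) := by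
  obtain ⟨L, hL0, hL⟩ := h1 c hc hne
  obtain ⟨p, hp⟩ := ht (K + 1)
  refine ⟨L * (1 + (p + 1) + 1 + Real.log (K + 2) + 1), ?_⟩
  filter_upwards [hp, FF_ge_one] with r a1 a2
  have hT1 := hT.one_le r a2
  have hT0 : 0 < T r := by linarith
  have b1 : (r + K / T r) < r + ((K + 1 : ℕ) : ℝ) / T r := by
    have : (K : ℝ) / T r < ((K + 1 : ℕ) : ℝ) / T r :=
      div_lt_div_of_pos_right (by push_cast; linarith) hT0
    linarith
  have b2 : 0 ≤ (K : ℝ) / T r := by positivity
  have b3 := hL (r + K / T r) (r + ((K + 1 : ℕ) : ℝ) / T r) (by linarith) b1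
  have b4 : (r + ((K + 1 : ℕ) : ℝ) / T r) - (r + K / T r) = 1 / T r := by
    push_cast; ring
  rw [b4, one_div_one_div] at b3
  set R := r + ((K + 1 : ℕ) : ℝ) / T r with hR
  have b5 : ((K + 1 : ℕ) : ℝ) / T r ≤ K + 1 := by
    rw [div_le_iff₀ hT0]
    push_cast
    nlinarith [(Nat.cast_nonneg K : (0 : ℝ) ≤ K)]
  have hK0 : (0 : ℝ) ≤ K := Nat.cast_nonneg K
  have l1 : 0 ≤ Real.log (1 + r) := Real.log_nonneg (by linarith)
  have l2 : 0 ≤ Real.log (1 + T r) := Real.log_nonneg (by linarith)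
  have l3 : 0 ≤ Real.log (K + 2) := Real.log_nonneg (by linarith)
  have c1 : Real.log (1 + R) ≤ Real.log (1 + r) + Real.log (K + 2) := by
    rw [← Real.log_mul (by linarith) (by linarith)]
    refine Real.log_le_log (by positivity) ?_
    nlinarith
  have c2 : Real.log (1 + proxInf c R) ≤ (p + 1) * Real.log (1 + T r) := by
    have e1 : 0 ≤ proxInf c R := prox_nonneg c R
    have e2 : 1 + proxInf c R ≤ (1 + T r) ^ (p + 1) := by
      have e3 : (T r) ^ p ≤ (1 + T r) ^ p := pow_le_pow_left₀ hT0.le (by linarith) p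
      have e4 : 1 ≤ (1 + T r) ^ p := one_le_pow₀ (by linarith)
      calc 1 + proxInf c R ≤ (1 + T r) ^ p + (1 + T r) ^ p := by linarith
        _ = (1 + T r) ^ p * 2 := by ring
        _ ≤ (1 + T r) ^ p * (1 + T r) := mul_le_mul_of_nonneg_left (by linarith) (by positivity)
        _ = (1 + T r) ^ (p + 1) := by ring
    have e5 := Real.log_le_log (by positivity) e2
    rw [Real.log_pow] at e5
    push_cast at e5
    exact e5
  refine b3.trans ?_
  rw [mul_assoc]
  refine mul_le_mul_of_nonneg_left ?_ hL0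
  have hp0 : (0 : ℝ) ≤ p := Nat.cast_nonneg p
  nlinarith [mul_nonneg l1 l3, mul_nonneg l2 l3, mul_nonneg hp0 l1, mul_nonneg hp0 l2]

theorem logDeriv_tame_small (h1 : S_ldl) {T : ℝ → ℝ} (hT : Gauge T) {c : ℂ → ℂ}
    (hc : Differentiable ℂ c) (hne : ∃ z, c z ≠ 0) (ht : Tame T c) :
    Tame T (logDeriv c) ∧ ∀ ε : ℝ, 0 < ε → ∀ᶠ r in FF, proxInf (logDeriv c) r ≤ ε * T r := by
  constructor
  · intro K
    obtain ⟨A, hA⟩ := der_bound h1 hT hc hne ht K
    refine ⟨1, ?_⟩
    filter_upwards [hA, (basic.2.2 T hT).1 A 1 one_pos] with r a1 a2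
    rw [pow_one]
    linarith
  · intro ε hε
    obtain ⟨A, hA⟩ := der_bound h1 hT hc hne ht 0
    filter_upwards [hA, (basic.2.2 T hT).1 A ε hε] with r a1 a2
    simp only [CharP.cast_eq_zero, zero_div, add_zero] at a1
    linarith

theorem der (h1 : S_ldl) : S_der := by
  intro T hT
  refine ⟨fun c hc => ?_, fun h hh => ?_⟩
  · by_cases hne : ∃ z, c z ≠ 0
    · obtain ⟨h2, h3⟩ := logDeriv_tame_small h1 hT hc.diff hne hc.tame
      have key : ∀ s : ℝ, 1 ≤ s → proxInf (deriv c) s ≤ proxInf c s + proxInf (logDeriv c) s + 0 := by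
        intro s hs
        have h4 : deriv c =ᶠ[codiscrete ℂ] fun z => c z * logDeriv c z := by
          filter_upwards [codis_ne hc.diff hne] with z hz
          rw [logDeriv_apply]
          field_simp
        rw [prox_congr_codiscrete (by linarith) h4, add_zero]
        exact prox_mul_le (mer_of_diff hc.diff _) (mer_logDeriv hc.diff)
      exact ⟨diff_deriv hc.diff, tame_of hT hc.tame h2 0 key, small_of hT hc.small h3 0 key⟩
    · have h5 : c = fun _ => 0 := by
        funext z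
        by_contra h6
        exact hne ⟨z, h6⟩
      have h6 : deriv c = fun _ => 0 := by rw [h5]; simp
      rw [h6]
      exact sm_const hT 0
  · obtain ⟨h2, h3⟩ := logDeriv_tame_small h1 hT hh.diff ⟨0, hh.ne 0⟩ hh.tame
    exact ⟨(diff_deriv hh.diff).div hh.diff hh.ne, h2, h3⟩

end Pool.Agent.Q72.DS
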