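import Pool.Agent.Q72.DS.Main
import Pool.Agent.Q38.DS.Ent
import Pool.Agent.Q38.DS.Hyp

/-!
Project DS (helper72): the theorem for meromorphic functions.
-/

set_option autoImplicit false

namespace Pool.Agent.Q72.DS

open Complex Metric Real Set Filter Topology MeasureTheory

theorem codis_iff {s : Set ℂ} : s ∈ codiscrete ℂ ↔ ∀ z, s ∈ 𝓝[≠] z := by
  rw [mem_codiscrete]
  refine forall_congr' fun z => ?_
  rw [disjoint_principal_right, compl_compl]

theorem order_congr_codis {f g : ℂ → ℂ} (h : f =ᶠ[codiscrete ℂ] g) (z : ℂ) :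
    meromorphicOrderAt f z = meromorphicOrderAt g z :=
  meromorphicOrderAt_congr (codis_iff.1 h z)

theorem deriv_congr_codis {f g : ℂ → ℂ} (h : f =ᶠ[codiscrete ℂ] g) :
    deriv f =ᶠ[codiscrete ℂ] deriv g := by
  have h1 : {x | f x = g x} ∈ codiscrete ℂ := h
  have h2 := (mem_codiscrete'.1 h1).1
  refine mem_of_superset h1 fun x hx => ?_
  have h3 : f =ᶠ[𝓝 x] g := h2.mem_nhds hx
  exact h3.deriv_eq

theorem shift_congr_codis {f g : ℂ → ℂ} (h : f =ᶠ[codiscrete ℂ] g) (c : ℂ) :
    (fun z => f (z + c)) =ᶠ[codiscrete ℂ] fun z => g (z + c) := by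
  refine codis_iff.2 fun z => ?_
  have h1 : {x | f x = g x} ∈ 𝓝[≠] (z + c) := codis_iff.1 h (z + c)
  have h2 : Tendsto (fun w : ℂ => w + c) (𝓝[≠] z) (𝓝[≠] (z + c)) := by
    refine tendsto_nhdsWithin_iff.2 ⟨?_, ?_⟩
    · exact ((continuous_id.add_const c).tendsto z).mono_left nhdsWithin_le_nhds
    · filter_upwards [self_mem_nhdsWithin] with w hw h3
      apply hw
      exact add_right_cancel h3
  exact h2 h1

theorem order_mul_const {f : ℂ → ℂ} (k : ℂ) (hk : k ≠ 0) (z : ℂ) (hf : MeromorphicAt f z) :
    meromorphicOrderAt (fun w => k * f w) z = meromorphicOrderAt f z := by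
  have h1 : AnalyticAt ℂ (fun _ : ℂ => k) z := analyticAt_const
  have h2 := meromorphicOrderAt_mul h1.meromorphicAt hf
  have h3 : meromorphicOrderAt (fun _ : ℂ => k) z = 0 := by
    classical
    rw [meromorphicOrderAt_const, if_neg hk]
  rw [h3, zero_add] at h2
  exact h2

/-- The theorem for meromorphic functions which are not polynomials of degree at most one. -/
theorem mero (hdiv : S_div) (hunit : S_unit) (hA : S_algA) (hB : S_algB) (hC : S_algC)
    (hQ : S_quot) {f : ℂ → ℂ} {c a₁ a₂ : ℂ} (hf : MeromorphicOn f univ) (hc : c ≠ 0)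
    (ha : a₁ ≠ a₂)
    (hlin : ¬ ∃ p q : ℂ, f =ᶠ[codiscrete ℂ] fun z => p * z + q)
    (h1 : ∀ z, 0 < meromorphicOrderAt (fun w => deriv f w - a₁) z ∨
      0 < meromorphicOrderAt (fun w => (f (w + c) - f w) - a₁) z →
      meromorphicOrderAt (fun w => deriv f w - a₁) z =
        meromorphicOrderAt (fun w => (f (w + c) - f w) - a₁) z)
    (h2 : ∀ z, 0 < meromorphicOrderAt (fun w => deriv f w - a₂) z ∨
      0 < meromorphicOrderAt (fun w => (f (w + c) - f w) - a₂) z →
      meromorphicOrderAt (fun w => deriv f w - a₂) z =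
        meromorphicOrderAt (fun w => (f (w + c) - f w) - a₂) z)
    (h3 : ∀ z, meromorphicOrderAt (deriv f) z < 0 ∨
      meromorphicOrderAt (fun w => f (w + c) - f w) z < 0 →
      meromorphicOrderAt (deriv f) z = meromorphicOrderAt (fun w => f (w + c) - f w) z) :
    deriv f =ᶠ[codiscrete ℂ] fun z => f (z + c) - f z := by
  obtain ⟨g, hg, hfg⟩ := Pool.Agent.Q38.DS.ent f c hf hc h3
  have hdf := deriv_congr_codis hfg
  have hsf : (fun z => f (z + c) - f z) =ᶠ[codiscrete ℂ] fun z => g (z + c) - g z :=
    (shift_congr_codis hfg c).sub hfg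
  have hdg : Differentiable ℂ (deriv g) := diff_deriv hg
  have hDg : Differentiable ℂ fun z => g (z + c) - g z := (diff_shift hg c).sub hg
  set k : ℂ := (a₂ - a₁)⁻¹ with hk
  have hk0 : k ≠ 0 := inv_ne_zero (sub_ne_zero.2 ha.symm)
  have hk1 : k * (a₂ - a₁) = 1 := inv_mul_cancel₀ (sub_ne_zero.2 ha.symm)
  -- orders
  have o1 : ∀ (a z : ℂ), meromorphicOrderAt (fun w => k * (deriv g w - a)) z =
      meromorphicOrderAt (fun w => deriv f w - a) z := by
    intro a z
    rw [order_mul_const k hk0 z ((hdg.sub_const a).analyticAt z).meromorphicAt]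
    refine order_congr_codis ?_ z
    exact (hdf.sub (EventuallyEq.refl _ fun _ => a)).symm
  have o2 : ∀ (a z : ℂ), meromorphicOrderAt (fun w => k * ((g (w + c) - g w) - a)) z =
      meromorphicOrderAt (fun w => (f (w + c) - f w) - a) z := by
    intro a z
    rw [order_mul_const k hk0 z ((hDg.sub_const a).analyticAt z).meromorphicAt]
    refine order_congr_codis ?_ z
    exact (hsf.sub (EventuallyEq.refl _ fun _ => a)).symm
  have e1 : (fun z => k * (deriv g z - a₁) - 1) = fun w => k * (deriv g w - a₂) := by
    funext z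
    linear_combination hk1
  have e2 : (fun z => k * ((g (z + c) - g z) - a₁) - 1) =
      fun w => k * ((g (w + c) - g w) - a₂) := by
    funext z
    linear_combination hk1
  have main := core hdiv hunit hA hB hC hQ (F := fun z => k * (deriv g z - a₁))
    (G := fun z => k * ((g (z + c) - g z) - a₁)) (c := c)
    ((differentiable_const k).mul (hdg.sub_const a₁))
    ((differentiable_const k).mul (hDg.sub_const a₁)) (by
      intro z
      have e3 : HasDerivAt (fun z => k * ((g (z + c) - g z) - a₁))
          (k * (deriv g (z + c) - deriv g z)) z := by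
        refine HasDerivAt.const_mul k (HasDerivAt.sub_const a₁ (HasDerivAt.sub ?_
          (hg z).hasDerivAt))
        exact (hg (z + c)).hasDerivAt.comp_add_const z c
      rw [e3.deriv]
      ring) (by
      by_contra hcon
      push Not at hcon
      apply hlin
      have e3 : ∀ z, deriv g z = deriv g 0 := by
        intro z
        have := mul_left_cancel₀ hk0 (hcon z)
        linear_combination this
      refine ⟨deriv g 0, g 0, hfg.trans ?_⟩
      have e4 : ∀ z, g z = deriv g 0 * z + g 0 := by
        intro z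
        have e5 : Differentiable ℂ fun z => g z - deriv g 0 * z :=
          hg.sub ((differentiable_const _).mul differentiable_id)
        have e6 := is_const_of_deriv_eq_zero e5 (fun x => by
          have e7 : HasDerivAt (fun z => g z - deriv g 0 * z) (deriv g x - deriv g 0 * 1) x :=
            (hg x).hasDerivAt.sub ((hasDerivAt_id x).const_mul _)
          rw [e7.deriv, e3 x]
          ring) z 0
        linear_combination e6
      exact Eventually.of_forall e4) (by
      intro z
      rw [o1, o2]
      exact h1 z) (by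
      intro z
      simp only [e1, e2]
      rw [o1, o2]
      exact h2 z)
  have e3 : ∀ z, deriv g z = g (z + c) - g z := by
    intro z
    have := mul_left_cancel₀ hk0 (main z)
    linear_combination this
  exact (hdf.trans (Eventually.of_forall e3)).trans hsf.symm

end Pool.Agent.Q72.DS
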