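import Pool.Agent.Q72.DS.Lev

/-!
Project DS (helper72): job IDM.
-/

set_option autoImplicit false

namespace Pool.Agent.Q72.DS

open Complex Metric Real Set Filter Topology MeasureTheory
open Pool.Agent.Helper160.Nev

/-- The third property of `S_lev`. -/
def Scale (T : ℝ → ℝ) (b : Fin 4 → ℂ → ℂ) (l : Fin 4 → ℤ) : Prop :=
  ∀ (n : ℕ) (e : Fin n → Fin 4 → ℤ) (c : Fin n → ℂ → ℂ), (∀ i, Sm T (c i)) →
      (∀ z, ∑ i, c i z * mon b (e i) z = 0) →
      ∀ t : ℂ, t ≠ 0 → ∀ z, ∑ i, c i z * (t ^ dot l (e i) * mon b (e i) z) = 0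

theorem scale_list {T : ℝ → ℝ} {b : Fin 4 → ℂ → ℂ} {l : Fin 4 → ℤ} (h : Scale T b l)
    (L : List ((ℂ → ℂ) × (Fin 4 → ℤ))) (hL : ∀ p ∈ L, Sm T p.1)
    (h0 : ∀ z, (L.map fun p => p.1 z * mon b p.2 z).sum = 0) {t : ℂ} (ht : t ≠ 0) (z : ℂ) :
    (L.map fun p => p.1 z * (t ^ dot l p.2 * mon b p.2 z)).sum = 0 := by
  have h1 := h L.length (fun i => (L[i.1]).2) (fun i => (L[i.1]).1)
    (fun i => hL _ (List.getElem_mem _)) (fun z => by
      rw [← h0 z]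
      exact Fin.sum_univ_fun_getElem L fun p => p.1 z * mon b p.2 z) t ht z
  rw [← h1]
  exact (Fin.sum_univ_fun_getElem L fun p => p.1 z * (t ^ dot l p.2 * mon b p.2 z)).symm

theorem scale_fintype {T : ℝ → ℝ} {b : Fin 4 → ℂ → ℂ} {l : Fin 4 → ℤ} (h : Scale T b l)
    {ι : Type*} [Fintype ι] (e : ι → Fin 4 → ℤ) (c : ι → ℂ → ℂ) (hc : ∀ i, Sm T (c i))
    (h0 : ∀ z, ∑ i, c i z * mon b (e i) z = 0) {t : ℂ} (ht : t ≠ 0) (z : ℂ) :
    ∑ i, c i z * (t ^ dot l (e i) * mon b (e i) z) = 0 := by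
  classical
  set E := Fintype.equivFin ι with hE
  have h1 := h (Fintype.card ι) (fun i => e (E.symm i)) (fun i => c (E.symm i)) (fun i => hc _)
    (fun z => by
      rw [← h0 z]
      exact E.symm.sum_comp (fun i => c i z * mon b (e i) z)) t ht z
  rw [← h1]
  exact (E.symm.sum_comp (fun i => c i z * (t ^ dot l (e i) * mon b (e i) z))).symm

/-- exponents -/
def Ex (i j k m : ℕ) : Fin 4 → ℤ := ![(i : ℤ), j, k, m]

theorem mon_Ex (u v u₁ v₁ : ℂ → ℂ) (i j k m : ℕ) (z : ℂ) :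
    mon ![u, v, u₁, v₁] (Ex i j k m) z = u z ^ i * v z ^ j * u₁ z ^ k * v₁ z ^ m := by
  simp only [mon, Ex, Fin.prod_univ_four, Matrix.cons_val_zero, Matrix.cons_val_one,
    Matrix.cons_val, zpow_natCast]

theorem dot_Ex (l : Fin 4 → ℤ) (i j k m : ℕ) :
    dot l (Ex i j k m) = l 0 * i + l 1 * j + l 2 * k + l 3 * m := by
  simp only [dot, Ex, Fin.sum_univ_four, Matrix.cons_val_zero, Matrix.cons_val_one,
    Matrix.cons_val]

theorem smon_Ex (u v u₁ v₁ : ℂ → ℂ) (l : Fin 4 → ℤ) (i j k m : ℕ) {t : ℂ} (ht : t ≠ 0) (z : ℂ) :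
    t ^ dot l (Ex i j k m) * mon ![u, v, u₁, v₁] (Ex i j k m) z =
      (t ^ l 0 * u z) ^ i * (t ^ l 1 * v z) ^ j * (t ^ l 2 * u₁ z) ^ k * (t ^ l 3 * v₁ z) ^ m := by
  rw [mon_Ex, dot_Ex, zpow_add₀ ht, zpow_add₀ ht, zpow_add₀ ht, zpow_mul, zpow_mul, zpow_mul,
    zpow_mul]
  simp only [zpow_natCast]
  ring

theorem idm : S_idm := by
  intro T hT hring u v u₁ v₁ a b hne ha hb hrel l hl t ht z
  obtain ⟨r0, r1, r2⟩ := hring T hT
  have hna : Sm T (fun z => (-1) * a z) := r2 _ _ (r0 (-1)) ha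
  have hnb : Sm T (fun z => (-1) * b z) := r2 _ _ (r0 (-1)) hb
  have h := scale_list (T := T) (b := ![u, v, u₁, v₁]) (l := l) hl
    [(fun _ => 1, Ex 2 0 1 0), (fun _ => -2, Ex 1 1 1 0), (fun _ => 1, Ex 0 2 1 0),
     (fun _ => -1, Ex 2 0 1 1), (fun _ => 2, Ex 1 1 1 1), (fun _ => -1, Ex 0 2 1 1),
     (fun _ => -1, Ex 2 0 1 0), (fun _ => 1, Ex 1 1 1 0), (fun _ => 1, Ex 2 1 1 0),
     (fun _ => -1, Ex 1 2 1 0), (a, Ex 1 0 1 0), (fun z => (-1) * a z, Ex 1 1 1 0),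
     (fun z => (-1) * b z, Ex 0 1 1 0), (b, Ex 1 1 1 0),
     (fun _ => 1, Ex 2 0 0 1), (fun _ => -1, Ex 1 1 0 1), (fun _ => -1, Ex 2 1 0 1),
     (fun _ => 1, Ex 1 2 0 1), (fun z => (-1) * a z, Ex 1 0 0 1), (a, Ex 1 1 0 1),
     (b, Ex 0 1 0 1), (fun z => (-1) * b z, Ex 1 1 0 1)] (by
      intro p hp
      simp only [List.mem_cons, List.not_mem_nil, or_false] at hp
      rcases hp with rfl | rfl | rfl | rfl | rfl | rfl | rfl | rfl | rfl | rfl | rfl | rfl | rfl |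
        rfl | rfl | rfl | rfl | rfl | rfl | rfl | rfl | rfl
      all_goals first
        | exact r0 _
        | exact ha
        | exact hb
        | exact hna
        | exact hnb) (by
      intro z
      have h1 := hrel z
      unfold Rel at h1
      simp only [List.map_cons, List.map_nil, List.sum_cons, List.sum_nil, mon_Ex]
      linear_combination h1) ht z
  simp only [List.map_cons, List.map_nil, List.sum_cons, List.sum_nil,
    smon_Ex u v u₁ v₁ l _ _ _ _ ht] at h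
  unfold Rel
  linear_combination h

end Pool.Agent.Q72.DS
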