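import Pool.Agent.Q72.DS.Borel

/-!
Project DS (helper72): job LEV.
-/

set_option autoImplicit false

namespace Pool.Agent.Q72.DS

open Complex Metric Real Set Filter Topology MeasureTheory
open Pool.Agent.Helper160.Nev

theorem mon_add {b : Fin 4 → ℂ → ℂ} {z : ℂ} (hb : ∀ k, b k z ≠ 0) (e f : Fin 4 → ℤ) :
    mon b (e + f) z = mon b e z * mon b f z := by
  unfold mon
  rw [← Finset.prod_mul_distrib]
  refine Finset.prod_congr rfl fun k _ => ?_
  rw [Pi.add_apply, zpow_add₀ (hb k)]

theorem mon_neg (b : Fin 4 → ℂ → ℂ) (z : ℂ) (e : Fin 4 → ℤ) : mon b (-e) z = (mon b e z)⁻¹ := by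
  unfold mon
  rw [← Finset.prod_inv_distrib]
  refine Finset.prod_congr rfl fun k _ => ?_
  rw [Pi.neg_apply, zpow_neg]

theorem mon_sub {b : Fin 4 → ℂ → ℂ} {z : ℂ} (hb : ∀ k, b k z ≠ 0) (e f : Fin 4 → ℤ) :
    mon b (e - f) z = mon b e z * (mon b f z)⁻¹ := by
  rw [sub_eq_add_neg, mon_add hb, mon_neg]

theorem mon_nsmul (b : Fin 4 → ℂ → ℂ) (z : ℂ) (e : Fin 4 → ℤ) (n : ℕ) :
    mon b (n • e) z = mon b e z ^ n := by
  unfold mon
  rw [← Finset.prod_pow]
  refine Finset.prod_congr rfl fun k _ => ?_
  rw [Pi.smul_apply, nsmul_eq_mul, mul_comm, zpow_mul, zpow_natCast]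

theorem mon_ne {b : Fin 4 → ℂ → ℂ} {z : ℂ} (hb : ∀ k, b k z ≠ 0) (e : Fin 4 → ℤ) :
    mon b e z ≠ 0 := Finset.prod_ne_zero_iff.2 fun k _ => zpow_ne_zero _ (hb k)

theorem mon_zero (b : Fin 4 → ℂ → ℂ) (z : ℂ) : mon b 0 z = 1 := by simp [mon]

theorem dot_add (l e f : Fin 4 → ℤ) : dot l (e + f) = dot l e + dot l f := by
  unfold dot
  rw [← Finset.sum_add_distrib]
  refine Finset.sum_congr rfl fun k _ => ?_
  rw [Pi.add_apply, mul_add]

theorem dot_sub (l e f : Fin 4 → ℤ) : dot l (e - f) = dot l e - dot l f := by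
  unfold dot
  rw [← Finset.sum_sub_distrib]
  refine Finset.sum_congr rfl fun k _ => ?_
  rw [Pi.sub_apply, mul_sub]

/-- The lattice of the exponents of the small monomials. -/
noncomputable def Lam (h2 : S_unit) {T : ℝ → ℝ} (hT : Gauge T) {b : Fin 4 → ℂ → ℂ}
    (hb : ∀ k, Un T (b k)) : Submodule ℤ (Fin 4 → ℤ) :=
  AddSubgroup.toIntSubmodule
    { carrier := {e | Sm T (mon b e)}
      add_mem' := by
        intro e f he hf
        have h := (ring T hT).2.2 _ _ he hf
        refine (congrArg (Sm T) (funext fun z => ?_)).mpr h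
        exact mon_add (fun k => (hb k).ne z) e f
      zero_mem' := by
        have h := (ring T hT).1 1
        refine (congrArg (Sm T) (funext fun z => ?_)).mpr h
        exact mon_zero b z
      neg_mem' := by
        intro e he
        have h := ((h2 T hT).2.2.1 (mon b e) he (fun z => mon_ne (fun k => (hb k).ne z) e)).2
        refine (congrArg (Sm T) (funext fun z => ?_)).mpr h
        exact mon_neg b z e }

theorem mem_Lam (h2 : S_unit) {T : ℝ → ℝ} (hT : Gauge T) {b : Fin 4 → ℂ → ℂ}
    (hb : ∀ k, Un T (b k)) (e : Fin 4 → ℤ) : e ∈ Lam h2 hT hb ↔ Sm T (mon b e) := Iff.rfl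

/-- A linear form which vanishes on a saturated sublattice and not at a given vector. -/
theorem exists_form (L : Submodule ℤ (Fin 4 → ℤ))
    (hL : ∀ (n : ℕ) (e : Fin 4 → ℤ), 0 < n → n • e ∈ L → e ∈ L) (e0 : Fin 4 → ℤ) (h0 : e0 ∉ L) :
    ∃ l : Fin 4 → ℤ, dot l e0 ≠ 0 ∧ ∀ e ∈ L, dot l e = 0 := by
  have : Module.IsTorsionFree ℤ ((Fin 4 → ℤ) ⧸ L) := by
    refine Module.IsTorsionFree.of_smul_eq_zero fun r x hx => ?_
    by_contra hcon
    push Not at hcon
    obtain ⟨hr0, hx0⟩ := hcon
    apply hx0
    revert hx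
    clear hx0
    obtain ⟨e, rfl⟩ := Submodule.Quotient.mk_surjective L x
    intro hx
    rw [← Submodule.Quotient.mk_smul, Submodule.Quotient.mk_eq_zero] at hx
    rw [Submodule.Quotient.mk_eq_zero]
    refine hL r.natAbs e (Int.natAbs_pos.2 hr0) ?_
    rcases Int.natAbs_eq r with h | h
    · rw [h] at hx
      simpa using hx
    · have := L.neg_mem hx
      rw [← neg_smul, h] at this
      simpa using this
  have : Module.Free ℤ ((Fin 4 → ℤ) ⧸ L) := Module.free_of_finite_type_torsion_free'
  set B := Module.Free.chooseBasis ℤ ((Fin 4 → ℤ) ⧸ L) with hB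
  have h1 : L.mkQ e0 ≠ 0 := by
    rw [Submodule.mkQ_apply, Ne, Submodule.Quotient.mk_eq_zero]
    exact h0
  obtain ⟨i, hi⟩ : ∃ i, B.repr (L.mkQ e0) i ≠ 0 := by
    by_contra h
    push Not at h
    apply h1
    apply B.repr.injective
    rw [map_zero]
    exact Finsupp.ext h
  set φ : (Fin 4 → ℤ) →ₗ[ℤ] ℤ := (B.coord i).comp L.mkQ with hφ
  have hdot : ∀ e, dot (fun k => φ (Pi.single k 1)) e = φ e := by
    intro e
    have h2 := LinearMap.pi_apply_eq_sum_univ φ e
    rw [h2]
    unfold dot
    refine Finset.sum_congr rfl fun k _ => ?_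
    rw [smul_eq_mul, mul_comm]
    congr 1
    change φ (Pi.single k 1) = _
    congr 1
    funext j
    simp [Pi.single_apply, eq_comm]
  refine ⟨fun k => φ (Pi.single k 1), ?_, fun e he => ?_⟩
  · rw [hdot]
    exact hi
  · rw [hdot, hφ, LinearMap.comp_apply]
    have : L.mkQ e = 0 := by
      rw [Submodule.mkQ_apply, Submodule.Quotient.mk_eq_zero]
      exact he
    rw [this, map_zero]

theorem lev (h1 : S_borel) (h2 : S_unit) : S_lev := by
  classical
  intro T hT b hb e0 he0
  obtain ⟨l, hl0, hl⟩ := exists_form (Lam h2 hT hb) (by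
    intro n e hn he
    rw [mem_Lam] at he ⊢
    refine (h2 T hT).2.2.2.2.1 (mon b e) n hn ((h2 T hT).2.2.2.2.2.1 b hb e) ?_
    refine (congrArg (Sm T) (funext fun z => ?_)).mpr he
    exact (mon_nsmul b z e n).symm) e0 (by rwa [mem_Lam])
  refine ⟨l, hl0, fun e he => hl e he, ?_⟩
  intro n e c hc hrel t ht
  have hbne : ∀ z k, b k z ≠ 0 := fun z k => (hb k).ne z
  set s : Setoid (Fin n) :=
    { r := fun i j => e i - e j ∈ Lam h2 hT hb
      iseqv := ⟨fun i => by rw [sub_self]; exact Submodule.zero_mem _,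
        fun {i j} h => by rw [← neg_sub]; exact Submodule.neg_mem _ h,
        fun {i j k} h h' => by
          have := Submodule.add_mem _ h h'
          rwa [sub_add_sub_cancel] at this⟩ } with hs
  have hout : ∀ i : Fin n, e i - e (Quotient.mk s i).out ∈ Lam h2 hT hb := by
    intro i
    have h3 : (Quotient.mk s i).out ≈ i := Quotient.mk_out i
    have h4 : e (Quotient.mk s i).out - e i ∈ Lam h2 hT hb := h3
    rw [← neg_sub]
    exact Submodule.neg_mem _ h4
  set C : Quotient s → ℂ → ℂ := fun q z => ∑ i : Fin n,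
    if Quotient.mk s i = q then c i z * mon b (e i - e q.out) z else 0 with hC
  have hsum : ∀ (I : Finset (Fin n)) (g : Fin n → ℂ → ℂ), (∀ i, Sm T (g i)) →
      Sm T (fun z => ∑ i ∈ I, g i z) := by
    intro I g hg
    induction I using Finset.induction_on with
    | empty =>
      simp only [Finset.sum_empty]
      exact (ring T hT).1 0
    | insert a I ha ih =>
      have := (ring T hT).2.1 _ _ (hg a) ih
      refine (congrArg (Sm T) (funext fun z => ?_)).mpr this
      exact Finset.sum_insert ha
  have hCs : ∀ q, Sm T (C q) := by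
    intro q
    refine hsum Finset.univ (fun i z => if Quotient.mk s i = q then
      c i z * mon b (e i - e q.out) z else 0) fun i => ?_
    by_cases h3 : Quotient.mk s i = q
    · simp only [h3, if_true]
      refine (ring T hT).2.2 _ _ (hc i) ?_
      have := hout i
      rw [h3] at this
      exact this
    · simp only [h3, if_false]
      exact (ring T hT).1 0
  -- regrouping
  have hgroup : ∀ (w : Fin n → ℂ) (z : ℂ), (∀ i, w i = w (Quotient.mk s i).out) →
      ∑ q, w q.out * (C q z * mon b (e q.out) z) = ∑ i, w i * (c i z * mon b (e i) z) := by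
    intro w z hw
    simp only [hC]
    calc ∑ q : Quotient s, w q.out * ((∑ i : Fin n,
          if Quotient.mk s i = q then c i z * mon b (e i - e q.out) z else 0) * mon b (e q.out) z)
        = ∑ q : Quotient s, ∑ i : Fin n, if Quotient.mk s i = q then
            w q.out * ((c i z * mon b (e i - e q.out) z) * mon b (e q.out) z) else 0 := by
          refine Finset.sum_congr rfl fun q _ => ?_
          rw [Finset.sum_mul, Finset.mul_sum]
          refine Finset.sum_congr rfl fun i _ => ?_
          split_ifs <;> ring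
      _ = ∑ i : Fin n, ∑ q : Quotient s, if Quotient.mk s i = q then
            w q.out * ((c i z * mon b (e i - e q.out) z) * mon b (e q.out) z) else 0 :=
          Finset.sum_comm
      _ = ∑ i : Fin n, w i * (c i z * mon b (e i) z) := by
          refine Finset.sum_congr rfl fun i _ => ?_
          rw [Finset.sum_ite_eq Finset.univ (Quotient.mk s i) fun q =>
            w q.out * ((c i z * mon b (e i - e q.out) z) * mon b (e q.out) z)]
          rw [if_pos (Finset.mem_univ _), ← hw i, mul_assoc (c i z), ← mon_add (hbne z)]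
          rw [sub_add_cancel]
  have hC0 : ∀ q z, C q z = 0 := by
    refine borel_fintype h1 hT C (fun q => mon b (e q.out)) hCs
      (fun q => (h2 T hT).2.2.2.2.2.1 b hb _) ?_ ?_
    · intro q q' hqq hsm
      apply hqq
      have h3 : e q.out - e q'.out ∈ Lam h2 hT hb := by
        rw [mem_Lam]
        refine (congrArg (Sm T) (funext fun z => ?_)).mpr hsm
        exact mon_sub (hbne z) _ _
      have h4 : Quotient.mk s q.out = Quotient.mk s q'.out := Quotient.sound h3
      rwa [Quotient.out_eq, Quotient.out_eq] at h4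
    · intro z
      have h3 := hgroup (fun _ => 1) z (fun _ => rfl)
      simp only [one_mul] at h3
      rw [h3]
      exact hrel z
  intro z
  have h3 := hgroup (fun i => t ^ dot l (e i)) z (fun i => by
    have := hl _ (hout i)
    rw [dot_sub, sub_eq_zero] at this
    simp only [this])
  have h4 : ∑ i, c i z * (t ^ dot l (e i) * mon b (e i) z) =
      ∑ i, t ^ dot l (e i) * (c i z * mon b (e i) z) :=
    Finset.sum_congr rfl fun i _ => by ring
  rw [h4, ← h3]
  exact Finset.sum_eq_zero fun q _ => by rw [hC0 q z, zero_mul, mul_zero]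

end Pool.Agent.Q72.DS
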