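import Pool.Agent.Q72.DS.Core

/-!
Project DS (helper72): the theorem for entire functions.
-/

set_option autoImplicit false

namespace Pool.Agent.Q72.DS

open Complex Metric Real Set Filter Topology MeasureTheory
open Pool.Agent.Helper160.Nev

theorem diff_shift {f : ℂ → ℂ} (hf : Differentiable ℂ f) (c : ℂ) :
    Differentiable ℂ fun z => f (z + c) :=
  hf.comp (differentiable_id.add_const c)

theorem const_of_logDeriv {X : ℂ → ℂ} (hX : Differentiable ℂ X) (hX0 : ∀ z, X z ≠ 0)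
    (h : ∀ z, logDeriv X z = 0) (z : ℂ) : X z = X 0 := by
  refine is_const_of_deriv_eq_zero hX (fun x => ?_) z 0
  have := h x
  rw [logDeriv_apply, div_eq_zero_iff] at this
  exact this.resolve_right (hX0 x)

theorem mon_quot (u v u₁ v₁ : ℂ → ℂ) (z : ℂ) :
    mon ![u, v, u₁, v₁] ![1, -1, 0, 0] z = u z * (v z)⁻¹ := by
  simp [mon, Fin.prod_univ_four]

theorem mon_quot1 (u v u₁ v₁ : ℂ → ℂ) (z : ℂ) :
    mon ![u, v, u₁, v₁] ![0, 0, 1, -1] z = u₁ z * (v₁ z)⁻¹ := by
  simp [mon, Fin.prod_univ_four]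

theorem mon_v (u v u₁ v₁ : ℂ → ℂ) : mon ![u, v, u₁, v₁] ![0, 1, 0, 0] = v := by
  funext z
  simp [mon, Fin.prod_univ_four]

theorem mon_u1 (u v u₁ v₁ : ℂ → ℂ) : mon ![u, v, u₁, v₁] ![0, 0, 1, 0] = u₁ := by
  funext z
  simp [mon, Fin.prod_univ_four]

theorem mon_v1 (u v u₁ v₁ : ℂ → ℂ) : mon ![u, v, u₁, v₁] ![0, 0, 0, 1] = v₁ := by
  funext z
  simp [mon, Fin.prod_univ_four]

/-- the end of case A -/
theorem caseA2 (hC : S_algC) {T : ℝ → ℝ} (hT : Gauge T) {b : Fin 4 → ℂ → ℂ} {l : Fin 4 → ℤ}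
    (hs : Scale T b l) {F G u v X : ℂ → ℂ} {c κ : ℂ} (hF : Differentiable ℂ F)
    (hG : Differentiable ℂ G) (hX : Differentiable ℂ X) (hX0 : ∀ z, X z ≠ 0) {f0 f1 : Fin 4 → ℤ}
    (h0 : ∀ z, X z = mon b f0 z) (h1 : ∀ z, X (z + c) = mon b f1 z) (hl : dot l f0 ≠ 0) {N : ℕ}
    (hN : 0 < N) (hω : Sm T (logDeriv X)) (hnc : ¬ Sm T X) {ε : ℂ} (hε : ε ≠ 0)
    (hFG : ∀ z, deriv G z = F (z + c) - F z)
    (e1 : ∀ z, (X z - 1) * F z = (X z - 1) * (κ + ε * ∑ j ∈ Finset.Icc 1 N, X z ^ j))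
    (e2 : ∀ z, (X z - 1) * G z = (X z - 1) * (κ + ε * ∑ j ∈ Finset.Icc 1 N, (X z)⁻¹ ^ j)) :
    False := by
  have hne : ∃ z, logDeriv X z ≠ 0 := by
    by_contra h
    push Not at h
    apply hnc
    have h2 : X = fun _ => X 0 := funext fun z => const_of_logDeriv hX hX0 h z
    rw [h2]
    exact sm_const hT _
  have hX1 : ¬ ∀ z, X z - 1 = 0 := by
    intro h
    apply hnc
    have h2 : X = fun _ => 1 := funext fun z => sub_eq_zero.1 (h z)
    rw [h2]
    exact sm_const hT _
  have dX : Differentiable ℂ fun z => X z - 1 := hX.sub_const 1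
  have hXi : Differentiable ℂ fun z => (X z)⁻¹ := hX.inv hX0
  have g1 : ∀ z, F z = κ + ε * ∑ j ∈ Finset.Icc 1 N, X z ^ j := by
    have d1 : Differentiable ℂ fun z => F z - (κ + ε * ∑ j ∈ Finset.Icc 1 N, X z ^ j) :=
      hF.sub ((differentiable_const _).add ((differentiable_const _).mul
        (Differentiable.fun_sum fun j _ => hX.pow j)))
    rcases ez dX d1 (fun z => by rw [mul_sub, e1 z, sub_self]) with h | h
    · exact absurd h hX1
    · exact fun z => sub_eq_zero.1 (h z)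
  have g2 : ∀ z, G z = κ + ε * ∑ j ∈ Finset.Icc 1 N, (X z)⁻¹ ^ j := by
    have d1 : Differentiable ℂ fun z => G z - (κ + ε * ∑ j ∈ Finset.Icc 1 N, (X z)⁻¹ ^ j) :=
      hG.sub ((differentiable_const _).add ((differentiable_const _).mul
        (Differentiable.fun_sum fun j _ => hXi.pow j)))
    rcases ez dX d1 (fun z => by rw [mul_sub, e2 z, sub_self]) with h | h
    · exact absurd h hX1
    · exact fun z => sub_eq_zero.1 (h z)
  exact caseA_end hC hT hs hX0 h0 h1 hl hN hω hne (power_case hX hX0 hε g1 g2 hFG)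

/-- Case A. -/
theorem caseA (hA : S_algA) (hC : S_algC) (hlev : S_lev) (hder : S_der) (hunit : S_unit)
    {T : ℝ → ℝ} (hT : Gauge T)
    {F G u v : ℂ → ℂ} {c : ℂ} (hF : Differentiable ℂ F) (hG : Differentiable ℂ G)
    (hu : Un T u) (hv : Un T v) (hu1 : Un T fun z => u (z + c)) (hv1 : Un T fun z => v (z + c))
    (hFG : ∀ z, deriv G z = F (z + c) - F z) (hFu : ∀ z, F z = u z * G z)
    (key : ∀ z, (u z - v z) * G z = 1 - v z)
    (hv_ne : ¬ ∀ z, v z = 1) (hu_ne : ¬ ∀ z, u z = 1)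
    (huv1 : ¬ ∀ z, u (z + c) - v (z + c) = 0)
    (hrel : ∀ z, Rel (logDeriv u z) (logDeriv v z) (u z) (v z) (u (z + c)) (v (z + c)))
    (hns : ¬ Sm T (mon ![u, v, fun z => u (z + c), fun z => v (z + c)] ![1, -1, 0, 0])) :
    False := by
  obtain ⟨r0, r1, r2⟩ := ring T hT
  have ha := (hder T hT).2 u hu
  have hb := (hder T hT).2 v hv
  set u₁ : ℂ → ℂ := fun z => u (z + c) with hu₁
  set v₁ : ℂ → ℂ := fun z => v (z + c) with hv₁
  set b : Fin 4 → ℂ → ℂ := ![u, v, u₁, v₁] with hb4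
  have hbU : ∀ k, Un T (b k) := by
    intro k
    fin_cases k
    · exact hu
    · exact hv
    · exact hu1
    · exact hv1
  obtain ⟨l, hl0, hlL, hs⟩ := hlev T hT b hbU _ hns
  have hd0 : dot l ![1, -1, 0, 0] = l 0 - l 1 := by
    simp [dot, Fin.sum_univ_four]
    ring
  have hpq : l 0 ≠ l 1 := by
    rw [hd0] at hl0
    exact fun h => hl0 (sub_eq_zero.2 h)
  have hid := idm T hT ring u v u₁ v₁ (logDeriv u) (logDeriv v)
    (fun z => ⟨hu.ne z, hv.ne z, hu1.ne z, hv1.ne z⟩) ha hb hrel l hs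
  set W : ℂ → ℂ := fun z => u z * (v z)⁻¹ with hW
  have hWm : ∀ z, W z = mon b ![1, -1, 0, 0] z := fun z => (mon_quot u v u₁ v₁ z).symm
  have hWmf : W = mon b ![1, -1, 0, 0] := funext hWm
  have hWns : ¬ Sm T W := by rw [hWmf]; exact hns
  have hWd : Differentiable ℂ W := hu.diff.mul (hv.diff.inv hv.ne)
  have hW0 : ∀ z, W z ≠ 0 := fun z => mul_ne_zero (hu.ne z) (inv_ne_zero (hv.ne z))
  have hWU : Un T W := (hunit T hT).1 _ _ hu ((hunit T hT).2.1 _ hv)
  -- generic points
  have hab : ¬ ∀ z, logDeriv u z - logDeriv v z = 0 := by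
    intro h
    apply hWns
    have h2 : ∀ z, logDeriv W z = 0 := by
      intro z
      have e : W = fun z => u z / v z := funext fun z => (div_eq_mul_inv _ _).symm
      rw [e, logDeriv_div z (hu.ne z) (hv.ne z) (hu.diff z) (hv.diff z)]
      exact h z
    have h3 : W = fun _ => W 0 := funext fun z => const_of_logDeriv hWd hW0 h2 z
    rw [h3]
    exact r0 _
  have dab : Differentiable ℂ fun z => logDeriv u z - logDeriv v z := ha.diff.sub hb.diff
  have duv1 : Differentiable ℂ fun z => u₁ z - v₁ z := hu1.diff.sub hv1.diff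
  have dgen : Differentiable ℂ fun z => (logDeriv u z - logDeriv v z) * (u₁ z - v₁ z) :=
    dab.mul duv1
  have hgen : ¬ ∀ z, (logDeriv u z - logDeriv v z) * (u₁ z - v₁ z) = 0 := by
    intro h
    rcases ez dab duv1 h with h | h
    · exact hab h
    · exact huv1 h
  have hpt : ∀ z, (logDeriv u z - logDeriv v z) * (u₁ z - v₁ z) ≠ 0 →
      ∃ n : ℤ, l 1 = n * (l 0 - l 1) ∧ v z = W z ^ n := by
    intro z hz
    have h1 : logDeriv u z ≠ logDeriv v z := fun h => hz (by rw [h, sub_self, zero_mul])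
    have h2 : u₁ z ≠ v₁ z := fun h => hz (by rw [h, sub_self, mul_zero])
    obtain ⟨n, hn1, hn2⟩ := hA (logDeriv u z) (logDeriv v z) (u z) (v z) (u₁ z) (v₁ z) (l 0) (l 1)
      (l 2) (l 3) (hu.ne z) (hv.ne z) (hu1.ne z) (hv1.ne z) h1 h2 hpq (fun t ht => hid t ht z)
    exact ⟨n, hn1, by rw [hn2, div_eq_mul_inv]⟩
  obtain ⟨z₀, hz₀⟩ := not_forall.1 hgen
  obtain ⟨n, hn, -⟩ := hpt z₀ hz₀
  have hvW : ∀ z, v z = W z ^ n := by
    have dd : Differentiable ℂ fun z => v z - W z ^ n :=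
      hv.diff.sub fun z => (hWd z).zpow (Or.inl (hW0 z))
    have h1 : ∀ z, ((logDeriv u z - logDeriv v z) * (u₁ z - v₁ z)) * (v z - W z ^ n) = 0 := by
      intro z
      by_cases h2 : (logDeriv u z - logDeriv v z) * (u₁ z - v₁ z) = 0
      · rw [h2, zero_mul]
      · obtain ⟨m, hm1, hm2⟩ := hpt z h2
        have h3 : m = n := by
          have h4 : l 0 - l 1 ≠ 0 := sub_ne_zero.2 hpq
          exact mul_right_cancel₀ h4 (hm1.symm.trans hn)
        rw [hm2, h3, sub_self, mul_zero]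
    rcases ez dgen dd h1 with h | h
    · exact absurd h hgen
    · exact fun z => sub_eq_zero.1 (h z)
  have huW : ∀ z, u z = W z * v z := fun z => by
    rw [hW]
    simp only
    rw [mul_assoc, inv_mul_cancel₀ (hv.ne z), mul_one]
  have hn0 : n ≠ 0 := by
    rintro rfl
    exact hv_ne fun z => by rw [hvW z, zpow_zero]
  have hn1 : n ≠ -1 := by
    rintro rfl
    exact hu_ne fun z => by rw [huW z, hvW z, zpow_neg_one, mul_inv_cancel₀ (hW0 z)]
  have hW1 : ∀ z, W (z + c) = mon b ![0, 0, 1, -1] z := fun z => (mon_quot1 u v u₁ v₁ z).symm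
  rcases lt_or_gt_of_ne hn0 with hneg | hpos
  · -- `n ≤ -2`
    obtain ⟨N, hN⟩ : ∃ N : ℕ, n = -((N : ℤ) + 2) := ⟨(-n - 2).toNat, by omega⟩
    set X : ℂ → ℂ := fun z => (W z)⁻¹ with hX
    have hXd : Differentiable ℂ X := hWd.inv hW0
    have hX0 : ∀ z, X z ≠ 0 := fun z => inv_ne_zero (hW0 z)
    have hXU : Un T X := (hunit T hT).2.1 _ hWU
    have hvX : ∀ z, v z = X z ^ (N + 2) := by
      intro z
      rw [hvW z, hN, hX]
      simp only
      rw [zpow_neg, ← inv_zpow]
      exact_mod_cast rfl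
    have huX : ∀ z, u z = X z ^ (N + 1) := by
      intro z
      have e : W z * X z = 1 := mul_inv_cancel₀ (hW0 z)
      rw [huW z, hvX z]
      linear_combination X z ^ (N + 1) * e
    have hGX : ∀ z, (X z - 1) * G z = X z - (X z)⁻¹ ^ (N + 1) := by
      intro z
      have h1 := key z
      rw [hvX z, huX z] at h1
      have e : X z * (X z)⁻¹ = 1 := mul_inv_cancel₀ (hX0 z)
      have e2 : X z ^ (N + 1) * (X z)⁻¹ ^ (N + 1) = 1 := by rw [← mul_pow, e, one_pow]
      have h3 : X z ^ (N + 1) * ((X z - 1) * G z) = X z ^ (N + 1) * (X z - (X z)⁻¹ ^ (N + 1)) := by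
        linear_combination -h1 + e2
      exact mul_left_cancel₀ (pow_ne_zero _ (hX0 z)) h3
    refine caseA2 hC hT hs (u := u) (v := v) (κ := 1) (ε := 1) (N := N + 1) (f0 := -![1, -1, 0, 0])
      (f1 := -![0, 0, 1, -1]) hF hG hXd hX0 (fun z => by rw [mon_neg, ← hWm])
      (fun z => by rw [mon_neg, ← hW1]) (by rw [dot_neg]; exact neg_ne_zero.2 hl0) (by omega)
      ((hder T hT).2 X hXU) ?_ one_ne_zero hFG ?_ ?_
    · intro h
      apply hWns
      have h2 := ((hunit T hT).2.2.1 X h hX0).2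
      refine (congrArg (Sm T) (funext fun z => ?_)).mpr h2
      rw [hX]
      simp
    · intro z
      have h1 := geo (X z) (N + 1)
      rw [one_mul, mul_add, h1, hFu z, huX z]
      have h2 := hGX z
      have e : X z * (X z)⁻¹ = 1 := mul_inv_cancel₀ (hX0 z)
      have e2 : X z ^ (N + 1) * (X z)⁻¹ ^ (N + 1) = 1 := by rw [← mul_pow, e, one_pow]
      linear_combination X z ^ (N + 1) * h2 - e2
    · intro z
      have h1 := geo_inv (hX0 z) (N + 1)
      rw [one_mul, mul_add, h1, hGX z]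
      ring
  · -- `n ≥ 1`
    obtain ⟨N, hN⟩ : ∃ N : ℕ, n = (N : ℤ) + 1 := ⟨(n - 1).toNat, by omega⟩
    have hvX : ∀ z, v z = W z ^ (N + 1) := by
      intro z
      rw [hvW z, hN]
      exact_mod_cast rfl
    have hGX : ∀ z, (W z - 1) * G z = (W z)⁻¹ ^ (N + 1) - 1 := by
      intro z
      have h1 := key z
      rw [huW z, hvX z] at h1
      have e : W z * (W z)⁻¹ = 1 := mul_inv_cancel₀ (hW0 z)
      have e2 : W z ^ (N + 1) * (W z)⁻¹ ^ (N + 1) = 1 := by rw [← mul_pow, e, one_pow]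
      have h3 : W z ^ (N + 1) * ((W z - 1) * G z) = W z ^ (N + 1) * ((W z)⁻¹ ^ (N + 1) - 1) := by
        linear_combination h1 - e2
      exact mul_left_cancel₀ (pow_ne_zero _ (hW0 z)) h3
    refine caseA2 hC hT hs (u := u) (v := v) (κ := 0) (ε := -1) (N := N + 1) (f0 := ![1, -1, 0, 0])
      (f1 := ![0, 0, 1, -1]) hF hG hWd hW0 hWm hW1 hl0 (by omega)
      ((hder T hT).2 W hWU) hWns (by norm_num) hFG ?_ ?_
    · intro z
      have h1 := geo (W z) (N + 1)
      have h2 := hGX z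
      have e : W z * (W z)⁻¹ = 1 := mul_inv_cancel₀ (hW0 z)
      have e2 : W z ^ (N + 1) * (W z)⁻¹ ^ (N + 1) = 1 := by rw [← mul_pow, e, one_pow]
      rw [hFu z, huW z, hvX z]
      linear_combination W z * W z ^ (N + 1) * h2 + h1 + W z * e2
    · intro z
      have h1 := geo_inv (hW0 z) (N + 1)
      have h2 := hGX z
      linear_combination h2 + h1

/-- Case B1. -/
theorem caseB1 (hB : S_algB) (hlev : S_lev) (hder : S_der) (hdiv : S_div)
    {T : ℝ → ℝ} (hT : Gauge T) {u v : ℂ → ℂ} {c : ℂ}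
    (hu : Un T u) (hv : Un T v) (hu1 : Un T fun z => u (z + c)) (hv1 : Un T fun z => v (z + c))
    (huv : ¬ ∀ z, u z - v z = 0) (hv1_ne : ¬ ∀ z, v (z + c) - 1 = 0)
    (huv1 : ¬ ∀ z, u (z + c) - v (z + c) = 0)
    (hrel : ∀ z, Rel (logDeriv u z) (logDeriv v z) (u z) (v z) (u (z + c)) (v (z + c)))
    (hs0 : Sm T (mon ![u, v, fun z => u (z + c), fun z => v (z + c)] ![1, -1, 0, 0])) :
    Sm T v := by
  by_contra hns
  obtain ⟨r0, r1, r2⟩ := ring T hT
  have ha := (hder T hT).2 u hu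
  have hb := (hder T hT).2 v hv
  set u₁ : ℂ → ℂ := fun z => u (z + c) with hu₁
  set v₁ : ℂ → ℂ := fun z => v (z + c) with hv₁
  set b : Fin 4 → ℂ → ℂ := ![u, v, u₁, v₁] with hb4
  have hbU : ∀ k, Un T (b k) := by
    intro k
    fin_cases k
    · exact hu
    · exact hv
    · exact hu1
    · exact hv1
  obtain ⟨l, hl0, hlL, hs⟩ := hlev T hT b hbU ![0, 1, 0, 0] (by rw [mon_v]; exact hns)
  have hd0 : dot l ![0, 1, 0, 0] = l 1 := by simp [dot, Fin.sum_univ_four]
  have hd1 : dot l ![1, -1, 0, 0] = l 0 - l 1 := by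
    simp [dot, Fin.sum_univ_four]
    ring
  have h01 : l 0 = l 1 := by
    have := hlL _ hs0
    rw [hd1] at this
    exact sub_eq_zero.1 this
  rw [hd0] at hl0
  have hid := idm T hT ring u v u₁ v₁ (logDeriv u) (logDeriv v)
    (fun z => ⟨hu.ne z, hv.ne z, hu1.ne z, hv1.ne z⟩) ha hb hrel l hs
  have d1 : Differentiable ℂ fun z => u z - v z := hu.diff.sub hv.diff
  have d2 : Differentiable ℂ fun z => v₁ z - 1 := hv1.diff.sub_const 1
  have d3 : Differentiable ℂ fun z => u₁ z - v₁ z := hu1.diff.sub hv1.diff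
  have d4 : Differentiable ℂ fun z => logDeriv u z * u z - logDeriv v z * v z :=
    (ha.diff.mul hu.diff).sub (hb.diff.mul hv.diff)
  have hprod : ∀ z, ((u z - v z) * ((v₁ z - 1) * (u₁ z - v₁ z))) *
      (logDeriv u z * u z - logDeriv v z * v z) = 0 := by
    intro z
    by_cases e1 : u z = v z
    · rw [e1]; ring
    by_cases e2 : v₁ z = 1
    · rw [e2]; ring
    by_cases e3 : u₁ z = v₁ z
    · rw [e3]; ring
    have := hB (logDeriv u z) (logDeriv v z) (u z) (v z) (u₁ z) (v₁ z) (l 1) (l 2) (l 3) (hu.ne z)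
      (hv.ne z) (hu1.ne z) (hv1.ne z) e1 e2 e3 hl0 (fun t ht => by
        have := hid t ht z
        rwa [h01] at this)
    rw [this, sub_self, mul_zero]
  have hder0 : ∀ z, logDeriv u z * u z - logDeriv v z * v z = 0 := by
    rcases ez (d1.mul (d2.mul d3)) d4 hprod with h | h
    · rcases ez d1 (d2.mul d3) h with h | h
      · exact absurd h huv
      · rcases ez d2 d3 h with h | h
        · exact absurd h hv1_ne
        · exact absurd h huv1
    · exact h
  have hconst : ∀ z, u z - v z = u 0 - v 0 := by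
    intro z
    refine is_const_of_deriv_eq_zero d1 (fun x => ?_) z 0
    have e1 : deriv (fun z => u z - v z) x = deriv u x - deriv v x :=
      ((hu.diff x).hasDerivAt.sub (hv.diff x).hasDerivAt).deriv
    rw [e1]
    have e2 := hder0 x
    rw [logDeriv_apply, logDeriv_apply, div_mul_cancel₀ _ (hu.ne x),
      div_mul_cancel₀ _ (hv.ne x)] at e2
    exact e2
  set κ := u 0 - v 0 with hκ
  have hκ0 : κ ≠ 0 := by
    intro h
    exact huv fun z => by rw [hconst z, h]
  apply hns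
  have hWs : Sm T (fun z => u z * (v z)⁻¹) := by
    refine (congrArg (Sm T) (funext fun z => ?_)).mpr hs0
    exact (mon_quot u v u₁ v₁ z).symm
  have hds : Sm T (fun z => u z * (v z)⁻¹ + (-1)) := r1 _ _ hWs (r0 (-1))
  have e : ∀ z, v z * (u z * (v z)⁻¹ + (-1)) = κ := by
    intro z
    rw [← hconst z]
    have := hv.ne z
    field_simp
    ring
  refine hdiv T hT (fun _ => κ) _ v (r0 κ) hds ⟨0, ?_⟩ hv.diff e
  intro h
  have := e 0
  rw [h, mul_zero] at this
  exact hκ0 this.symm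

/-- Case B2. -/
theorem caseB2 (hC : S_algC) (hlev : S_lev) (hder : S_der) (hdiv : S_div)
    {T : ℝ → ℝ} (hT : Gauge T)
    {F G u v : ℂ → ℂ} {c : ℂ} (hF : Differentiable ℂ F) (hG : Differentiable ℂ G)
    (hu : Un T u) (hv : Un T v) (hu1 : Un T fun z => u (z + c)) (hv1 : Un T fun z => v (z + c))
    (hFG : ∀ z, deriv G z = F (z + c) - F z) (hFu : ∀ z, F z = u z * G z)
    (key : ∀ z, (u z - v z) * G z = 1 - v z)
    (huv : ¬ ∀ z, u z - v z = 0)
    (hs0 : Sm T (mon ![u, v, fun z => u (z + c), fun z => v (z + c)] ![1, -1, 0, 0]))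
    (hvs : Sm T v) (hnot : ¬ (Sm T u ∧ Sm T v ∧ Sm T (fun z => u (z + c)) ∧
      Sm T (fun z => v (z + c)))) :
    (∀ z, u (z + c) - 1 = 0) ∨ ∀ z, F (z + c) = 0 := by
  obtain ⟨r0, r1, r2⟩ := ring T hT
  set u₁ : ℂ → ℂ := fun z => u (z + c) with hu₁
  set v₁ : ℂ → ℂ := fun z => v (z + c) with hv₁
  set b : Fin 4 → ℂ → ℂ := ![u, v, u₁, v₁] with hb4
  have hbU : ∀ k, Un T (b k) := by
    intro k
    fin_cases k
    · exact hu
    · exact hv
    · exact hu1
    · exact hv1
  have hus : Sm T u := by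
    have h := r2 _ _ hs0 hvs
    refine (congrArg (Sm T) (funext fun z => ?_)).mpr h
    rw [mon_quot, mul_assoc, inv_mul_cancel₀ (hv.ne z), mul_one]
  have hGs : Sm T G := by
    refine hdiv T hT (fun z => 1 + (-1) * v z) (fun z => u z + (-1) * v z) G
      (r1 _ _ (r0 1) (r2 _ _ (r0 (-1)) hvs)) (r1 _ _ hus (r2 _ _ (r0 (-1)) hvs)) ?_ hG fun z => ?_
    · by_contra h
      push Not at h
      exact huv fun z => by
        have := h z
        linear_combination this
    · linear_combination key z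
  have hFs : Sm T F := by
    refine (congrArg (Sm T) (funext fun z => ?_)).mpr (r2 _ _ hus hGs)
    exact hFu z
  set φ : ℂ → ℂ := fun z => F (z + c) with hφ
  have hφs : Sm T φ := by
    refine (congrArg (Sm T) (funext fun z => ?_)).mpr (r1 _ _ hFs ((hder T hT).1 G hGs))
    rw [hFG z, hφ]
    ring
  have hkey1 : ∀ z, φ z * (u₁ z - v₁ z) = u₁ z * (1 - v₁ z) := by
    intro z
    have h1 := key (z + c)
    have h2 := hFu (z + c)
    rw [hφ, hu₁, hv₁]
    simp only
    rw [h2]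
    linear_combination u (z + c) * h1
  -- the lattice form
  obtain ⟨l, hs, hl⟩ : ∃ l : Fin 4 → ℤ, Scale T b l ∧ ¬ (l 2 = 0 ∧ l 3 = 0) := by
    by_cases h1 : Sm T u₁
    · have h2 : ¬ Sm T v₁ := fun h2 => hnot ⟨hus, hvs, h1, h2⟩
      obtain ⟨l, hl0, -, hs⟩ := hlev T hT b hbU ![0, 0, 0, 1] (by rw [mon_v1]; exact h2)
      refine ⟨l, hs, fun h => hl0 ?_⟩
      simp [dot, Fin.sum_univ_four, h.2]
    · obtain ⟨l, hl0, -, hs⟩ := hlev T hT b hbU ![0, 0, 1, 0] (by rw [mon_u1]; exact h1)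
      refine ⟨l, hs, fun h => hl0 ?_⟩
      simp [dot, Fin.sum_univ_four, h.1]
  have hmφ : Sm T (fun z => (-1) * φ z) := r2 _ _ (r0 (-1)) hφs
  have hsc : ∀ t : ℂ, t ≠ 0 → ∀ z, φ z * (t ^ l 2 * u₁ z - t ^ l 3 * v₁ z) =
      t ^ l 2 * u₁ z * (1 - t ^ l 3 * v₁ z) := by
    intro t ht z
    have h := scale_list hs [(φ, Ex 0 0 1 0), (fun z => (-1) * φ z, Ex 0 0 0 1),
      (fun _ => -1, Ex 0 0 1 0), (fun _ => 1, Ex 0 0 1 1)] (by
        intro p hp
        simp only [List.mem_cons, List.not_mem_nil, or_false] at hp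
        rcases hp with rfl | rfl | rfl | rfl
        · exact hφs
        · exact hmφ
        · exact r0 _
        · exact r0 _) (by
        intro z
        simp only [List.map_cons, List.map_nil, List.sum_cons, List.sum_nil, hb4, mon_Ex]
        linear_combination hkey1 z) ht z
    simp only [List.map_cons, List.map_nil, List.sum_cons, List.sum_nil, hb4,
      smon_Ex u v u₁ v₁ l _ _ _ _ ht] at h
    linear_combination h
  have hpt : ∀ z, u₁ z = 1 ∨ φ z = 0 := fun z =>
    hC.2 (φ z) (u₁ z) (v₁ z) (l 2) (l 3) (hu1.ne z) (hv1.ne z) hl fun t ht => hsc t ht z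
  refine ez (hu1.diff.sub_const 1) (diff_shift hF c) fun z => ?_
  rcases hpt z with h | h
  · have h' : u (z + c) = 1 := h
    rw [h', sub_self, zero_mul]
  · have h' : F (z + c) = 0 := h
    rw [h', mul_zero]

/-- The theorem for entire functions. -/
theorem core (hdiv : S_div) (hunit : S_unit) (hA : S_algA) (hB : S_algB) (hC : S_algC)
    (hQ : S_quot) {F G : ℂ → ℂ} {c : ℂ} (hF : Differentiable ℂ F) (hG : Differentiable ℂ G)
    (hFG : ∀ z, deriv G z = F (z + c) - F z) (hnc : ∃ z, F z ≠ F 0)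
    (h0 : ∀ z, 0 < meromorphicOrderAt F z ∨ 0 < meromorphicOrderAt G z →
      meromorphicOrderAt F z = meromorphicOrderAt G z)
    (h1 : ∀ z, 0 < meromorphicOrderAt (fun z => F z - 1) z ∨
      0 < meromorphicOrderAt (fun z => G z - 1) z →
      meromorphicOrderAt (fun z => F z - 1) z = meromorphicOrderAt (fun z => G z - 1) z) :
    ∀ z, F z = G z := by
  by_contra hne
  have hder : S_der := der ldl
  have hlev : S_lev := lev (borel hdiv hder) hunit
  obtain ⟨u, hu, hu0, hFu⟩ := hQ F G hF hG h0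
  obtain ⟨v, hv, hv0, hFv⟩ := hQ _ _ (hF.sub_const 1) (hG.sub_const 1) h1
  have key : ∀ z, (u z - v z) * G z = 1 - v z := by
    intro z
    have e1 := hFu z
    have e2 := hFv z
    linear_combination e2 - e1
  have hu_ne : ¬ ∀ z, u z = 1 := fun h => hne fun z => by rw [hFu z, h z, one_mul]
  have hv_ne : ¬ ∀ z, v z = 1 := fun h => hne fun z => by
    have := hFv z
    rw [h z] at this
    linear_combination this
  have huv : ¬ ∀ z, u z - v z = 0 := fun h => hv_ne fun z => by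
    have := key z
    rw [h z, zero_mul] at this
    linear_combination this
  have hshift : ∀ p : ℂ → Prop, (∀ z, p (z + c)) → ∀ z, p z := fun p h z => by
    have := h (z - c)
    rwa [sub_add_cancel] at this
  have huv1 : ¬ ∀ z, u (z + c) - v (z + c) = 0 := fun h => huv (hshift (fun z => u z - v z = 0) h)
  have hv1_ne : ¬ ∀ z, v (z + c) - 1 = 0 := fun h => hv_ne fun z =>
    sub_eq_zero.1 (hshift (fun z => v z - 1 = 0) h z)
  have hnc2 : (∃ z, u z ≠ u 0) ∨ (∃ z, v z ≠ v 0) := by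
    by_contra h
    push Not at h
    obtain ⟨e1, e2⟩ := h
    have e3 : u 0 - v 0 ≠ 0 := fun h => huv fun z => by rw [e1 z, e2 z, h]
    obtain ⟨z, hz⟩ := hnc
    apply hz
    have e4 : (u 0 - v 0) * G z = (u 0 - v 0) * G 0 := by
      have k1 := key z
      have k2 := key 0
      rw [e1 z, e2 z] at k1
      rw [k1, k2]
    have e5 : G z = G 0 := mul_left_cancel₀ e3 e4
    rw [hFu z, hFu 0, e1 z, e5]
  have hu1 := diff_shift hu c
  have hv1 := diff_shift hv c
  set T : ℝ → ℝ := gg u v (fun z => u (z + c)) (fun z => v (z + c)) with hTdef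
  have hT : Gauge T := gg_gauge hu hv hu1 hv1 hu0 hv0 hnc2
  have p1 : ∀ r, proxInf u r ≤ T r := fun r => by
    have a1 := prox_nonneg u r
    have a2 := prox_nonneg v r
    have a3 := prox_nonneg (fun z => u (z + c)) r
    have a4 := prox_nonneg (fun z => v (z + c)) r
    rw [hTdef]; unfold gg; linarith
  have p2 : ∀ r, proxInf v r ≤ T r := fun r => by
    have a1 := prox_nonneg u r
    have a2 := prox_nonneg v r
    have a3 := prox_nonneg (fun z => u (z + c)) r
    have a4 := prox_nonneg (fun z => v (z + c)) r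
    rw [hTdef]; unfold gg; linarith
  have p3 : ∀ r, proxInf (fun z => u (z + c)) r ≤ T r := fun r => by
    have a1 := prox_nonneg u r
    have a2 := prox_nonneg v r
    have a3 := prox_nonneg (fun z => u (z + c)) r
    have a4 := prox_nonneg (fun z => v (z + c)) r
    rw [hTdef]; unfold gg; linarith
  have p4 : ∀ r, proxInf (fun z => v (z + c)) r ≤ T r := fun r => by
    have a1 := prox_nonneg u r
    have a2 := prox_nonneg v r
    have a3 := prox_nonneg (fun z => u (z + c)) r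
    have a4 := prox_nonneg (fun z => v (z + c)) r
    rw [hTdef]; unfold gg; linarith
  have U1 : Un T u := ⟨hu, hu0, tame_le hT p1⟩
  have U2 : Un T v := ⟨hv, hv0, tame_le hT p2⟩
  have U3 : Un T (fun z => u (z + c)) := ⟨hu1, fun z => hu0 _, tame_le hT p3⟩
  have U4 : Un T (fun z => v (z + c)) := ⟨hv1, fun z => hv0 _, tame_le hT p4⟩
  have hnot : ¬ (Sm T u ∧ Sm T v ∧ Sm T (fun z => u (z + c)) ∧ Sm T (fun z => v (z + c))) := by
    rintro ⟨s1, s2, s3, s4⟩
    have := FF_neBot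
    have hev : ∀ᶠ r in FF, False := by
      filter_upwards [s1.small (1 / 8) (by norm_num), s2.small (1 / 8) (by norm_num),
        s3.small (1 / 8) (by norm_num), s4.small (1 / 8) (by norm_num), gauge_le T hT 3]
        with r q1 q2 q3 q4 q5
      have q6 : T r = 1 + (proxInf u r + proxInf v r + proxInf (fun z => u (z + c)) r +
        proxInf (fun z => v (z + c)) r) := rfl
      linarith
    obtain ⟨r, hr⟩ := hev.exists
    exact hr
  have hrel : ∀ z, Rel (logDeriv u z) (logDeriv v z) (u z) (v z) (u (z + c)) (v (z + c)) := by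
    intro z
    have k0 := key z
    have k1 := key (z + c)
    have kf := hFG z
    rw [hFu (z + c), hFu z] at kf
    have kd : (logDeriv u z * u z - logDeriv v z * v z) * G z + (u z - v z) * deriv G z =
        -(logDeriv v z * v z) := by
      have e1 : (fun z => (u z - v z) * G z) = fun z => 1 - v z := funext key
      have e2 : HasDerivAt (fun z => (u z - v z) * G z)
          ((deriv u z - deriv v z) * G z + (u z - v z) * deriv G z) z :=
        (((hu z).hasDerivAt.sub (hv z).hasDerivAt).mul (hG z).hasDerivAt)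
      have e3 : HasDerivAt (fun z => 1 - v z) (-deriv v z) z := by
        have := (hv z).hasDerivAt.const_sub 1
        exact this
      rw [e1] at e2
      have e4 := e2.unique e3
      rw [logDeriv_apply, logDeriv_apply, div_mul_cancel₀ _ (hu0 z), div_mul_cancel₀ _ (hv0 z)]
      exact e4
    unfold Rel
    linear_combination (-(u (z + c)) * (u z - v z) ^ 2) * k1 -
      (u (z + c) - v (z + c)) * (u z - v z) ^ 2 * kf +
      (u (z + c) - v (z + c)) * (u z * (u z - v z) -
        (logDeriv u z * u z - logDeriv v z * v z)) * k0 +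
      (u (z + c) - v (z + c)) * (u z - v z) * kd
  by_cases hs0 : Sm T (mon ![u, v, fun z => u (z + c), fun z => v (z + c)] ![1, -1, 0, 0])
  · have hvs := caseB1 hB hlev hder hdiv hT U1 U2 U3 U4 huv hv1_ne huv1 hrel hs0
    rcases caseB2 hC hlev hder hdiv hT hF hG U1 U2 U3 U4 hFG hFu key huv hs0 hvs hnot with h | h
    · exact hu_ne fun z => sub_eq_zero.1 (hshift (fun z => u z - 1 = 0) h z)
    · obtain ⟨z, hz⟩ := hnc
      have h2 := hshift (fun z => F z = 0) h
      apply hz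
      rw [h2 z, h2 0]
  · exact caseA hA hC hlev hder hunit hT hF hG U1 U2 U3 U4 hFG hFu key hv_ne hu_ne huv1 hrel hs0

end Pool.Agent.Q72.DS
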