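import Pool.Agent.Q72.DS.Stm

/-!
Project DS (helper72): jobs MONO and JEN; basic facts on the proximity function.
-/

set_option autoImplicit false

namespace Pool.Agent.Q72.DS

open Complex Metric Real Set Filter Topology MeasureTheory
open Pool.Agent.Helper160.Nev

theorem mer_of_diff {c : ℂ → ℂ} (hc : Differentiable ℂ c) (U : Set ℂ) : MeromorphicOn c U :=
  fun z _ => (hc.analyticAt z).meromorphicAt

theorem prox_nonneg (c : ℂ → ℂ) (r : ℝ) : 0 ≤ proxInf c r :=
  circleAverage_nonneg_of_nonneg fun _ _ => posLog_nonneg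

theorem ci_mer {c : ℂ → ℂ} {r : ℝ} (hc : MeromorphicOn c univ) :
    CircleIntegrable (fun z => log⁺ ‖c z‖) 0 r :=
  MeromorphicOn.circleIntegrable_posLog_norm (hc.mono_set (subset_univ _))

theorem ci_ent {c : ℂ → ℂ} {r : ℝ} (hc : Differentiable ℂ c) :
    CircleIntegrable (fun z => log⁺ ‖c z‖) 0 r := ci_mer (mer_of_diff hc _)

theorem ci_ent_inv {c : ℂ → ℂ} {r : ℝ} (hc : Differentiable ℂ c) :
    CircleIntegrable (fun z => log⁺ ‖(c z)⁻¹‖) 0 r := by
  have := ci_mer (c := fun z => (c z)⁻¹) (r := r) ((mer_of_diff hc univ).inv)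
  exact this

theorem prox_le_of {c d : ℂ → ℂ} {r : ℝ} (hc : MeromorphicOn c univ) (hd : MeromorphicOn d univ)
    (h : ∀ z, ‖c z‖ ≤ ‖d z‖) : proxInf c r ≤ proxInf d r :=
  circleAverage_mono (ci_mer hc) (ci_mer hd) fun z _ => posLog_le_posLog (norm_nonneg _) (h z)

theorem prox_add_le {c d : ℂ → ℂ} {r : ℝ} (hc : MeromorphicOn c univ) (hd : MeromorphicOn d univ) :
    proxInf (fun z => c z + d z) r ≤ proxInf c r + proxInf d r + Real.log 2 := by
  have h1 : CircleIntegrable (fun z => log⁺ ‖c z‖ + log⁺ ‖d z‖ + Real.log 2) 0 r :=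
    ((ci_mer hc).add (ci_mer hd)).add (circleIntegrable_const _ _ _)
  have h2 : proxInf (fun z => c z + d z) r ≤
      circleAverage (fun z => log⁺ ‖c z‖ + log⁺ ‖d z‖ + Real.log 2) 0 r := by
    refine circleAverage_mono (ci_mer (hc.add hd)) h1 fun z _ => ?_
    have := posLog_norm_add_le (c z) (d z)
    linarith
  refine h2.trans (le_of_eq ?_)
  have h3 : CircleIntegrable (fun z => log⁺ ‖c z‖ + log⁺ ‖d z‖) 0 r := (ci_mer hc).add (ci_mer hd)
  rw [circleAverage_fun_add h3 (circleIntegrable_const _ _ _),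
    circleAverage_fun_add (ci_mer hc) (ci_mer hd), circleAverage_const]
  rfl

theorem prox_mul_le {c d : ℂ → ℂ} {r : ℝ} (hc : MeromorphicOn c univ) (hd : MeromorphicOn d univ) :
    proxInf (fun z => c z * d z) r ≤ proxInf c r + proxInf d r := by
  have h1 : CircleIntegrable (fun z => log⁺ ‖c z‖ + log⁺ ‖d z‖) 0 r := (ci_mer hc).add (ci_mer hd)
  have h2 : proxInf (fun z => c z * d z) r ≤
      circleAverage (fun z => log⁺ ‖c z‖ + log⁺ ‖d z‖) 0 r := by
    refine circleAverage_mono (ci_mer (hc.mul hd)) h1 fun z _ => ?_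
    simp only [norm_mul]
    exact posLog_mul
  refine h2.trans (le_of_eq ?_)
  rw [circleAverage_fun_add (ci_mer hc) (ci_mer hd)]
  rfl

theorem prox_const (k : ℂ) (r : ℝ) : proxInf (fun _ => k) r = log⁺ ‖k‖ := circleAverage_const _ _ _

theorem prox_congr_codiscrete {c d : ℂ → ℂ} {r : ℝ} (hr : r ≠ 0) (h : c =ᶠ[codiscrete ℂ] d) :
    proxInf c r = proxInf d r := by
  refine circleAverage_congr_codiscreteWithin ?_ hr
  have h2 : c =ᶠ[codiscreteWithin (sphere (0 : ℂ) |r|)] d :=
    h.filter_mono (codiscreteWithin_mono (subset_univ _))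
  filter_upwards [h2] with z hz
  rw [hz]

theorem prox_eq_char {c : ℂ → ℂ} (hc : Differentiable ℂ c) {r : ℝ} :
    proxInf c r = ValueDistribution.characteristic c ⊤ r := by
  have h2 : ValueDistribution.logCounting c ⊤ = 0 := by
    have h : (MeromorphicOn.divisor c univ)⁻ = 0 := by
      ext z
      have h3 : 0 ≤ meromorphicOrderAt c z := (hc.analyticAt z).meromorphicOrderAt_nonneg
      have h4 : 0 ≤ MeromorphicOn.divisor c univ z := by
        rw [MeromorphicOn.divisor_apply (mer_of_diff hc univ) (mem_univ z)]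
        rcases eq_or_ne (meromorphicOrderAt c z) ⊤ with h5 | h5
        · rw [h5]; simp
        · lift meromorphicOrderAt c z to ℤ using h5 with n
          simpa using h3
      simp [h4]
    rw [ValueDistribution.logCounting_top, h]
    simp
  rw [ValueDistribution.characteristic, h2, add_zero, ValueDistribution.proximity_top]
  rfl

theorem mono : S_mono := by
  intro c hc r R hr hrR
  rw [prox_eq_char hc, prox_eq_char hc]
  have h1 : Meromorphic c := fun z => (hc.analyticAt z).meromorphicAt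
  exact ValueDistribution.characteristic_monotoneOn h1 hr (hr.trans_le hrR) hrR

/-- `avg log |c| = m(r, c) - m(r, 1/c)` -/
theorem avg_log_eq {c : ℂ → ℂ} (hc : Differentiable ℂ c) (r : ℝ) :
    circleAverage (fun z => Real.log ‖c z‖) 0 r = proxInf c r - proxInf (fun z => (c z)⁻¹) r := by
  rw [proxInf, proxInf, ← circleAverage_fun_sub (ci_ent hc) (ci_ent_inv hc)]
  congr 1
  funext z
  rw [norm_inv]
  exact posLog_sub_posLog_inv.symm

theorem avg_log_ge {c : ℂ → ℂ} (hc : Differentiable ℂ c) {r : ℝ} (hr : 1 ≤ r) :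
    counting (zeroMult c) r + Real.log ‖meromorphicTrailingCoeffAt c 0‖ =
      circleAverage (fun z => Real.log ‖c z‖) 0 r := by
  have h := jensen (zero_lt_one.trans_le hr) (mer_of_diff hc (closedBall 0 r))
  have h2 : counting (poleMult c) r = 0 := by
    unfold counting
    have h3 : ∀ z, poleMult c z = 0 := fun z =>
      poleMult_eq_zero (hc.analyticAt z).meromorphicOrderAt_nonneg
    simp [h3]
  rw [h, h2]
  ring

theorem counting_nonneg {μ : ℂ → ℤ} {r : ℝ} (hr : 1 ≤ r) (h : ∀ z, 0 ≤ μ z) : 0 ≤ counting μ r := by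
  unfold counting
  refine add_nonneg (finsum_nonneg fun z => finsum_nonneg fun hz => ?_) ?_
  · exact mul_nonneg (by exact_mod_cast h z) (log_nonneg' hz)
  · exact mul_nonneg (by exact_mod_cast h 0) (Real.log_nonneg hr)

theorem jen : S_jen := by
  intro c hc _
  refine ⟨-Real.log ‖meromorphicTrailingCoeffAt c 0‖, fun r hr => ?_⟩
  have h1 := avg_log_eq hc r
  have h2 := avg_log_ge hc hr
  have h3 := counting_nonneg hr (zeroMult_nonneg c)
  linarith

end Pool.Agent.Q72.DS
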