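import Pool.Agent.Q72.DS.Basic

/-!
Project DS (helper72): job RING.
-/

set_option autoImplicit false

namespace Pool.Agent.Q72.DS

open Complex Metric Real Set Filter Topology MeasureTheory
open Pool.Agent.Helper160.Nev

/-- If `m(s, d) ≤ m(s, c₁) + m(s, c₂) + K` for `s ≥ 1` and `c₁`, `c₂` are tame, then `d` is tame. -/
theorem tame_of {T : ℝ → ℝ} (hT : Gauge T) {c₁ c₂ d : ℂ → ℂ} (h1 : Tame T c₁) (h2 : Tame T c₂)
    (K : ℝ) (h : ∀ s : ℝ, 1 ≤ s → proxInf d s ≤ proxInf c₁ s + proxInf c₂ s + K) : Tame T d := by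
  intro k
  obtain ⟨p, hp⟩ := h1 k
  obtain ⟨q, hq⟩ := h2 k
  refine ⟨p + q + 2, ?_⟩
  filter_upwards [hp, hq, FF_ge_one, gauge_le T hT (|K| + 2)] with r a1 a2 a3 a4
  have a5 : 0 ≤ (k : ℝ) / T r := div_nonneg (Nat.cast_nonneg _) (by linarith [abs_nonneg K])
  have a6 := h (r + k / T r) (by linarith)
  have hT1 : 1 ≤ T r := by linarith [abs_nonneg K]
  have b1 : T r ^ p ≤ T r ^ (p + q) := pow_le_pow_right₀ hT1 (by omega)
  have b2 : T r ^ q ≤ T r ^ (p + q) := pow_le_pow_right₀ hT1 (by omega)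
  have b3 : 1 ≤ T r ^ (p + q) := one_le_pow₀ hT1
  have b4 : K ≤ |K| := le_abs_self K
  calc proxInf d (r + k / T r) ≤ T r ^ p + T r ^ q + K := by linarith
    _ ≤ T r ^ (p + q) * (|K| + 2) := by nlinarith [abs_nonneg K]
    _ ≤ T r ^ (p + q) * T r := mul_le_mul_of_nonneg_left a4 (by positivity)
    _ ≤ T r ^ (p + q) * T r ^ 2 := by
        refine mul_le_mul_of_nonneg_left ?_ (by positivity)
        nlinarith
    _ = T r ^ (p + q + 2) := by ring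

/-- The smallness part. -/
theorem small_of {T : ℝ → ℝ} (hT : Gauge T) {c₁ c₂ d : ℂ → ℂ}
    (h1 : ∀ ε : ℝ, 0 < ε → ∀ᶠ r in FF, proxInf c₁ r ≤ ε * T r)
    (h2 : ∀ ε : ℝ, 0 < ε → ∀ᶠ r in FF, proxInf c₂ r ≤ ε * T r)
    (K : ℝ) (h : ∀ s : ℝ, 1 ≤ s → proxInf d s ≤ proxInf c₁ s + proxInf c₂ s + K) :
    ∀ ε : ℝ, 0 < ε → ∀ᶠ r in FF, proxInf d r ≤ ε * T r := by
  intro ε hε
  filter_upwards [h1 (ε / 3) (by positivity), h2 (ε / 3) (by positivity), FF_ge_one,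
    gauge_le T hT (3 * |K| / ε)] with r a1 a2 a3 a4
  have a5 := h r a3
  have a6 : 3 * |K| ≤ T r * ε := (div_le_iff₀ hε).1 a4
  have b4 : K ≤ |K| := le_abs_self K
  linarith

theorem sm_of {T : ℝ → ℝ} (hT : Gauge T) {c₁ c₂ d : ℂ → ℂ} (h1 : Sm T c₁) (h2 : Sm T c₂)
    (hd : Differentiable ℂ d)
    (K : ℝ) (h : ∀ s : ℝ, 1 ≤ s → proxInf d s ≤ proxInf c₁ s + proxInf c₂ s + K) : Sm T d :=
  ⟨hd, tame_of hT h1.tame h2.tame K h, small_of hT h1.small h2.small K h⟩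

theorem sm_const {T : ℝ → ℝ} (hT : Gauge T) (k : ℂ) : Sm T (fun _ => k) := by
  refine ⟨differentiable_const _, fun K => ⟨1, ?_⟩, fun ε hε => ?_⟩
  · filter_upwards [gauge_le T hT (log⁺ ‖k‖)] with r h
    rw [prox_const, pow_one]
    exact h
  · filter_upwards [gauge_le T hT (log⁺ ‖k‖ / ε)] with r h
    rw [prox_const]
    have := (div_le_iff₀ hε).1 h
    linarith

theorem ring : S_ring := by
  intro T hT
  refine ⟨sm_const hT, fun c d hc hd => ?_, fun c d hc hd => ?_⟩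
  · exact sm_of hT hc hd (hc.diff.add hd.diff) (Real.log 2) fun s _ =>
      prox_add_le (mer_of_diff hc.diff _) (mer_of_diff hd.diff _)
  · refine sm_of hT hc hd (hc.diff.mul hd.diff) 0 fun s _ => ?_
    rw [add_zero]
    exact prox_mul_le (mer_of_diff hc.diff _) (mer_of_diff hd.diff _)

end Pool.Agent.Q72.DS
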