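import Pool.Agent.Helper160.NevLib

/-!
Project DS (helper72): entire functions `F`, `G` with `G' (z) = F (z + c) - F (z)` which share the
values `0` and `1` with multiplicities.  Statements of the lemma jobs, with complete proofs in the
docstrings.  No growth condition is made, so the characteristic functions of `F (z)` and `F (z + c)` are not
comparable; everything is measured against one function `T`.
-/

set_option autoImplicit false

namespace Pool.Agent.Q72.DS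

open Complex Metric Real Set Filter Topology MeasureTheory
open Pool.Agent.Helper160.Nev (proxInf)

/-- The radii outside of sets of finite measure: a property holds along `FF` if it holds for all `r ≥ 1`
outside of a set of finite measure. -/
noncomputable def FF : Filter ℝ := (volume.restrict (Ici (1 : ℝ))).cofinite

/-- A gauge: a nondecreasing function `T ≥ 1` on `[1, ∞)` with at least linear growth. -/
structure Gauge (T : ℝ → ℝ) : Prop where
  mono : MonotoneOn T (Ici 1)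
  one_le : ∀ r, 1 ≤ r → 1 ≤ T r
  lin : ∃ c : ℝ, 0 < c ∧ ∀ᶠ r in atTop, c * r ≤ T r

/-- `m(r + K / T(r), c)` is bounded by a power of `T(r)`, for every `K`. -/
def Tame (T : ℝ → ℝ) (c : ℂ → ℂ) : Prop :=
  ∀ K : ℕ, ∃ p : ℕ, ∀ᶠ r in FF, proxInf c (r + K / T r) ≤ T r ^ p

/-- Small entire functions: `m(r, c) = o(T(r))` along `FF`. -/
structure Sm (T : ℝ → ℝ) (c : ℂ → ℂ) : Prop where
  diff : Differentiable ℂ c
  tame : Tame T c
  small : ∀ ε : ℝ, 0 < ε → ∀ᶠ r in FF, proxInf c r ≤ ε * T r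

/-- Units: tame entire functions without zeros. -/
structure Un (T : ℝ → ℝ) (h : ℂ → ℂ) : Prop where
  diff : Differentiable ℂ h
  ne : ∀ z, h z ≠ 0
  tame : Tame T h

/-- The monomial `∏ b_k^(e_k)`. -/
noncomputable def mon (b : Fin 4 → ℂ → ℂ) (e : Fin 4 → ℤ) (z : ℂ) : ℂ := ∏ k, b k z ^ e k

/-- The linear form with coefficients `l`. -/
def dot (l e : Fin 4 → ℤ) : ℤ := ∑ k, l k * e k

/-- JOB MONO. `m(r, c)` is nondecreasing for entire `c`.
Proof. `log⁺ |c|` is subharmonic. Elementary: for `|z| < R` the Poisson kernel `P(z, ζ)` (seed lemma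
`circleAverage_poisson`, and Poisson-Jensen / `log |c(z)| ≤ ∫ P log |c|`) gives
`log |c(z)| ≤ avg_ζ P(z,ζ) log |c(ζ)| ≤ avg_ζ P(z,ζ) log⁺ |c(ζ)|`, so `log⁺ |c(z)| ≤ avg_ζ P(z,ζ) log⁺ |c(ζ)|`;
average over `|z| = r` (Fubini, `avg_z P(z,ζ) = 1`). Look first for an existing lemma (Mathlib: subharmonic,
`ValueDistribution`, monotonicity of the characteristic; the pool: circle averages of `log⁺`). Alternative:
Cartan's formula `m(r,c) = avg_θ N(r, e^{iθ}, c) + log⁺ |c(0)|` with `N` nondecreasing in `r`. -/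
def S_mono : Prop := ∀ c : ℂ → ℂ, Differentiable ℂ c → ∀ r R : ℝ, 0 < r → r ≤ R →
  proxInf c r ≤ proxInf c R

/-- JOB JEN. Proof: seed lemmas `Pool.Agent.Helper160.Nev.jensen`, `ci_posLog`, `ci_posLog_inv`:
`m(r, 1/c) = m(r, c) - avg log |c|` and `avg log |c| = counting (zeroMult c) r - 0 + log |trailing coefficient|`,
where `counting (zeroMult c) r ≥ 0` for `r ≥ 1`. -/
def S_jen : Prop := ∀ c : ℂ → ℂ, Differentiable ℂ c → (∃ z, c z ≠ 0) →
  ∃ K : ℝ, ∀ r : ℝ, 1 ≤ r → proxInf (fun z => (c z)⁻¹) r ≤ proxInf c r + K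

/-- JOB LDL. Logarithmic derivative lemma with explicit radii.
Proof. Choose `ρ` with `(r + R)/2 ≤ ρ ≤ (r + 3 R)/4` such that `c` has no zeros on `|z| = ρ`. The seed lemma
`Pool.Agent.Helper160.Nev.avg_log_sum` for `s = {()}`, `g = c`, radii `r < ρ`, `α = 1/2`, `C` from `exists_const` gives
`m(r, c'/c) ≤ 2 log (1 + (1 + 2ρ/(ρ²-r²) avg_ρ |log|c|| + 2 C n))`, `n` = number of zeros in `|z| < ρ` with
multiplicity. Here `2ρ/(ρ²-r²) ≤ 2/(ρ-r) ≤ 4/(R-r)`; `avg_ρ |log |c|| = 2 m(ρ,c) - avg_ρ log |c| ≤ 2 m(ρ, c) + K`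
(Jensen, as in S_jen) `≤ 2 m(R, c) + K` (S_mono); and `n log (R/ρ) ≤ counting (zeroMult c) R ≤ m(R,c) + K` (Jensen; every
zero in `|z| < ρ` contributes at least `log (R/ρ)`, the zero at `0` too since `ρ ≥ 1`), `log (R/ρ) ≥ (R-ρ)/R ≥ (R-r)/(4R)`.
Take logarithms of the product bound. -/
def S_ldl : Prop := ∀ c : ℂ → ℂ, Differentiable ℂ c → (∃ z, c z ≠ 0) →
  ∃ K : ℝ, 0 ≤ K ∧ ∀ r R : ℝ, 1 ≤ r → r < R → proxInf (logDeriv c) r ≤
    K * (1 + Real.log (1 + proxInf c R) + Real.log (1 + R) + Real.log (1 + 1 / (R - r)))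

/-- JOB GROW. Borel's growth lemma.
Proof. `E_j = {r ≥ 1 : 2^j ≤ T r < 2^(j+1), T (r + K / T r) > 2 T r}`. Let `s_j = sup {r ≥ 1 : T r < 2^(j+1)}` (finite as
`T → ∞`). For `r ∈ E_j`: `r ≤ s_j`, and `T (r + K / 2^j) ≥ T (r + K / T r) > 2^(j+1)`, so `r + K / 2^j ≥ s_j` (by
monotonicity). So `E_j ⊆ [s_j - K / 2^j, s_j]` has measure at most `K / 2^j`, and the union has measure at most
`2 K`. -/
def S_grow : Prop := ∀ T : ℝ → ℝ, Gauge T → ∀ K : ℕ, ∀ᶠ r in FF, T (r + K / T r) ≤ 2 * T r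

/-- JOB BASIC. `FF` is a filter different from `⊥` with `FF ≤ atTop`, and `log r = o(T(r))`, `log T(r) = o(T(r))`.
Proof. Restricted Lebesgue measure of `[1, ∞)` is infinite; `{r ≥ a}` has a complement in `[1, ∞)` of finite measure.
`T ≥ c r`. -/
def S_basic : Prop := FF.NeBot ∧ FF ≤ atTop ∧ ∀ T : ℝ → ℝ, Gauge T →
  (∀ A ε : ℝ, 0 < ε → ∀ᶠ r in FF, A * (1 + Real.log (1 + r) + Real.log (1 + T r)) ≤ ε * T r) ∧
  ∀ A : ℝ, ∀ᶠ r in FF, A ≤ T r

/-- JOB LIN. Zero-free entire functions grow at least linearly.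
Proof. `u = e^α`, `α` entire and not constant (logarithm on `ℂ`), so some Taylor coefficient `a_k`, `k ≥ 1`, is not `0`.
`avg (α e^{-ikθ}) = a_k r^k` and `avg (conj α e^{-ikθ}) = 0` on `|z| = r`, so `|a_k| r^k ≤ 2 avg |Re α|`; and
`avg |Re α| = 2 avg (Re α)⁺ - avg Re α = 2 m(r, u) - Re α(0)`. So `m(r,u) ≥ (|a_k| r^k / 2 + Re α(0)) / 2`.
(Or: Borel-Caratheodory and Liouville for a sequence of radii is not enough, all large `r` are needed.) -/
def S_lin : Prop := ∀ u : ℂ → ℂ, Differentiable ℂ u → (∀ z, u z ≠ 0) → (∃ z, u z ≠ u 0) →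
  ∃ c : ℝ, 0 < c ∧ ∀ᶠ r in atTop, c * r ≤ proxInf u r

/-- JOB RING. Small functions form a ring (uses `S_basic`).
Proof. `m(r, c + d) ≤ m(r,c) + m(r,d) + log 2`, `m(r, c d) ≤ m(r,c) + m(r,d)` (Mathlib: `posLog_norm_add_le`,
`posLog_mul`; `ci_posLog` for integrability), and constants are absorbed by `T → ∞` along `FF`; for `Tame` take the larger
exponent plus `2` (`T r ≥ 2` eventually, `T^p + T^q + log 2 ≤ T^(max p q + 2)`). -/
def S_ring : Prop := ∀ T : ℝ → ℝ, Gauge T → (∀ k : ℂ, Sm T (fun _ => k)) ∧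
  (∀ c d : ℂ → ℂ, Sm T c → Sm T d → Sm T (fun z => c z + d z)) ∧
  (∀ c d : ℂ → ℂ, Sm T c → Sm T d → Sm T (fun z => c z * d z))

/-- JOB DIV. Division (uses `S_basic`, `S_jen`).
Proof. `h = c * d⁻¹` off the zeros of `d`, so `m(r, h) ≤ m(r, c) + m(r, 1/d) ≤ m(r, c) + m(r, d) + K` for `r ≥ 1` by S_jen
(circle averages do not see finitely many points), also at `r + K' / T r ≥ 1`. -/
def S_div : Prop := ∀ T : ℝ → ℝ, Gauge T → ∀ c d h : ℂ → ℂ, Sm T c → Sm T d → (∃ z, d z ≠ 0) →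
  Differentiable ℂ h → (∀ z, h z * d z = c z) → Sm T h

/-- JOB DER. Derivatives (uses `S_basic`, `S_ldl`, `S_grow`, `S_ring`).
Proof. First claim: if `c = 0` trivial; otherwise `c' = c * logDeriv c` off the zeros of `c`, so
`m(ρ, c') ≤ m(ρ, c) + m(ρ, logDeriv c)`, for `ρ = r + K / T r`. By S_ldl with `R = r + (K+1) / T r`, `R - ρ = 1 / T r`, this is at
most `K' (1 + log (1 + m(R, c)) + log (1 + R) + log (1 + T r))` with `m(R, c) ≤ T r ^ p` (tame), `R ≤ r + K + 1`: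
a bound `K'' (1 + log (1 + r) + log (1 + T r))` along `FF`, which is `≤ ε T r` and `≤ T r ^ 2` by S_basic. Second claim: the
same bound for `logDeriv h`, which is entire. -/
def S_der : Prop := ∀ T : ℝ → ℝ, Gauge T → (∀ c : ℂ → ℂ, Sm T c → Sm T (deriv c)) ∧
  ∀ h : ℂ → ℂ, Un T h → Sm T (logDeriv h)

/-- JOB UNIT. Units (uses `S_basic`, `S_jen`, `S_ring`).
Proof. (1), (2) as in RING; `m(r, 1/h) ≤ m(r, h) + K` by S_jen. (3) and (4) follow; (5): `m(r, h ^ n) = n m(r, h)`. (6): an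
integral power with exponent `e` has `m ≤ |e| (m(r,h) + K)`; products of four. (7) as (6) with all `m(r, b_k)` small. -/
def S_unit : Prop := ∀ T : ℝ → ℝ, Gauge T →
  (∀ h g : ℂ → ℂ, Un T h → Un T g → Un T (fun z => h z * g z)) ∧
  (∀ h : ℂ → ℂ, Un T h → Un T (fun z => (h z)⁻¹)) ∧
  (∀ h : ℂ → ℂ, Sm T h → (∀ z, h z ≠ 0) → Un T h ∧ Sm T (fun z => (h z)⁻¹)) ∧
  (∀ h : ℂ → ℂ, Un T h → (∀ ε : ℝ, 0 < ε → ∀ᶠ r in FF, proxInf h r ≤ ε * T r) → Sm T h) ∧
  (∀ (h : ℂ → ℂ) (n : ℕ), 0 < n → Un T h → Sm T (fun z => h z ^ n) → Sm T h) ∧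
  (∀ (b : Fin 4 → ℂ → ℂ), (∀ k, Un T (b k)) → ∀ e, Un T (mon b e)) ∧
  (∀ (b : Fin 4 → ℂ → ℂ), (∀ k, Un T (b k)) → (∀ k, Sm T (b k)) → ∀ e, Sm T (mon b e))

/-- JOB BOREL. Borel's theorem with small coefficients (uses `S_ring`, `S_div`, `S_der`, `S_unit`).
Proof. Induction on `n`; suppose some `c_i` is not `0`; the terms with `c_i = 0` can be left out (induction), so all
`c_i ≠ 0` (as functions), and `n ≥ 2` (`n = 1`: `c_1 h_1 = 0`). Put `η_i = logDeriv h_i` (small by S_der), `n` the last index.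
Differentiating: `∑ (c_i' + c_i η_i) h_i = 0`. Multiply this by `c_n`, the relation by `c_n' + c_n η_n`, subtract:
`∑_{i<n} [c_n (c_i' + c_i η_i) - c_i (c_n' + c_n η_n)] h_i = 0`, with small coefficients, so by induction all brackets
vanish. For `i = 1` (`< n`) this says that `(c_1 h_1) / (c_n h_n)` has derivative `0` where `c_n ≠ 0`, so (`c_1 h_1`, `c_n h_n` entire,
identity theorem) `c_1 h_1 = κ c_n h_n` with a constant `κ`, and `κ ≠ 0`. So `(h_1/h_n) c_1 = κ c_n`, and S_div (with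
`d = c_1`, `h = h_1 / h_n`) shows that `h_1 / h_n` is small: a contradiction. -/
def S_borel : Prop := ∀ T : ℝ → ℝ, Gauge T → ∀ (n : ℕ) (c h : Fin n → ℂ → ℂ), (∀ i, Sm T (c i)) →
  (∀ i, Un T (h i)) → (∀ i j, i ≠ j → ¬ Sm T (fun z => h i z * (h j z)⁻¹)) →
  (∀ z, ∑ i, c i z * h i z = 0) → ∀ i z, c i z = 0

/-- JOB LEV. Scaling of relations (uses `S_borel`, `S_unit`, `S_ring`).
Proof. `Λ = {e : mon b e small}` is a subgroup of `ℤ^4` (S_unit, S_ring) with `n e ∈ Λ, n > 0 → e ∈ Λ` (S_unit (5)); so there is an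
integral linear form `l`, zero on `Λ`, with `dot l e0 ≠ 0`: e.g. the rational span `V` of `Λ` in `ℚ^4` does not contain
`e0` (otherwise a multiple of `e0` is in `Λ`), take a linear form of `ℚ^4`, zero on `V`, not zero at `e0`, and clear
denominators. Third property: group the terms of the relation by the classes of the `e_i` modulo `Λ`. In a class with
representative `e'` every `mon b (e_i) = s_i mon b e'` with `s_i = mon b (e_i - e')` small, so the sum over the class is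
`(∑ c_i s_i) mon b e'` with a small coefficient. The representatives of different classes have quotients which are not
small. By S_borel all `∑ c_i s_i = 0`, so the sum over every class is zero; as `dot l` is constant on the classes, the
factors `t ^ dot l (e_i)` come out of the sums over the classes. -/
def S_lev : Prop := ∀ T : ℝ → ℝ, Gauge T → ∀ b : Fin 4 → ℂ → ℂ, (∀ k, Un T (b k)) →
  ∀ e0 : Fin 4 → ℤ, ¬ Sm T (mon b e0) →
  ∃ l : Fin 4 → ℤ, dot l e0 ≠ 0 ∧ (∀ e, Sm T (mon b e) → dot l e = 0) ∧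
    ∀ (n : ℕ) (e : Fin n → Fin 4 → ℤ) (c : Fin n → ℂ → ℂ), (∀ i, Sm T (c i)) →
      (∀ z, ∑ i, c i z * mon b (e i) z = 0) →
      ∀ t : ℂ, t ≠ 0 → ∀ z, ∑ i, c i z * (t ^ dot l (e i) * mon b (e i) z) = 0

/-- The relation between `u, v, u₁, v₁` and the logarithmic derivatives `a, b` of `u, v`. -/
def Rel (a b U V U₁ V₁ : ℂ) : Prop :=
  U₁ * (1 - V₁) * (U - V) ^ 2 =
    (U₁ - V₁) * (U * (1 - V) * (U - V) - a * U * (1 - V) + b * V * (1 - U))

/-- JOB IDM. The scaled relation (uses `S_lev`'s third property as a hypothesis, and that `a`, `b`, constants, products with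
constants are small: `S_ring`).
Proof. Expand `U₁(1-V₁)(U-V)² - (U₁-V₁)(U² - UV - U²V + UV² - aU + aUV + bV - bUV)` into 22 monomials
`c_i mon b (e_i)` with `b = ![u, v, u₁, v₁]` and coefficients `c_i` among `±1, ±2, ±a, ±b`, e.g. `U₁U²` is `e = ![2,0,1,0]`. Apply the
third property; `t ^ dot l e * mon b e` is the same monomial in `t^(l 0) u` etc. (`zpow_add₀`, `zpow_mul`). -/
def S_idm : Prop := ∀ T : ℝ → ℝ, Gauge T → S_ring → ∀ u v u₁ v₁ a b : ℂ → ℂ,
  (∀ z, u z ≠ 0 ∧ v z ≠ 0 ∧ u₁ z ≠ 0 ∧ v₁ z ≠ 0) → Sm T a → Sm T b →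
  (∀ z, Rel (a z) (b z) (u z) (v z) (u₁ z) (v₁ z)) → ∀ l : Fin 4 → ℤ,
  (∀ (n : ℕ) (e : Fin n → Fin 4 → ℤ) (c : Fin n → ℂ → ℂ), (∀ i, Sm T (c i)) →
      (∀ z, ∑ i, c i z * mon ![u, v, u₁, v₁] (e i) z = 0) →
      ∀ t : ℂ, t ≠ 0 → ∀ z, ∑ i, c i z * (t ^ dot l (e i) * mon ![u, v, u₁, v₁] (e i) z) = 0) →
  ∀ t : ℂ, t ≠ 0 → ∀ z, Rel (a z) (b z) (t ^ l 0 * u z) (t ^ l 1 * v z) (t ^ l 2 * u₁ z) (t ^ l 3 * v₁ z)

/-- JOB ALGA.
Proof. `d = p - q`. Let `t₀ ^ d = v / u`; at `t₀`: `U = V` (`U = t^p u` etc.). The left side of Rel vanishes and the bracket is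
`(b - a) V (1 - V)`, so `(U₁ - V₁)(b - a) V (1 - V) = 0`. Suppose `V ≠ 1` at `t₀`. Then `U₁ = V₁` at `t₀`. Differentiate Rel
with respect to `t` at `t₀`: the left side has a double zero, the right side gives `(x - y) t₀⁻¹ U₁ * bracket = 0`, so
`x = y` and `u₁ = v₁`, excluded. So `t₀ ^ q v = 1` for ALL `t₀` with `t₀ ^ d = v/u`. Replace `t₀` by `ζ t₀`, `ζ = exp(2πi/|d|)`:
`ζ ^ q = 1`, so `d ∣ q`, `q = l d`, and `1 = t₀ ^ q v = (v/u)^l v`. -/
def S_algA : Prop := ∀ (a b u v u₁ v₁ : ℂ) (p q x y : ℤ), u ≠ 0 → v ≠ 0 → u₁ ≠ 0 → v₁ ≠ 0 →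
  a ≠ b → u₁ ≠ v₁ → p ≠ q →
  (∀ t : ℂ, t ≠ 0 → Rel a b (t ^ p * u) (t ^ q * v) (t ^ x * u₁) (t ^ y * v₁)) →
  ∃ l : ℤ, q = l * (p - q) ∧ v = (u / v) ^ l

/-- JOB ALGB.
Proof. Suppose `A = b v - a u ≠ 0`, `C = - u v (u - v) ≠ 0`. Dividing by `t^p`, Rel says
`t^x u₁ (1 - t^y v₁) t^p (u-v)² = (t^x u₁ - t^y v₁)(A + B t^p + C t^(2p))` for all `t ≠ 0`. Compare orders at `t = 0` and at `t = ∞`
(Laurent polynomials in `t`; or asymptotics of norms for real `t → 0`, `t → ∞`), for `p > 0` (otherwise replace `t` by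
`1/t`): `x + min(0,y) + p = min(x,y)` and `x + max(0,y) + p = max(x,y) + 2p` (if `y = 0` then `1 - v₁ ≠ 0` is used, if `x = y`
then `u₁ - v₁ ≠ 0`). Sum: `x = 0`; then the first gives `p = 0`, a contradiction. -/
def S_algB : Prop := ∀ (a b u v u₁ v₁ : ℂ) (p x y : ℤ), u ≠ 0 → v ≠ 0 → u₁ ≠ 0 → v₁ ≠ 0 →
  u ≠ v → v₁ ≠ 1 → u₁ ≠ v₁ → p ≠ 0 →
  (∀ t : ℂ, t ≠ 0 → Rel a b (t ^ p * u) (t ^ p * v) (t ^ x * u₁) (t ^ y * v₁)) → a * u = b * v

/-- JOB ALGC.
Proof. First claim. Let `δ > 0` (otherwise replace `t` by `1/t`). If `δ₁ ≤ 0` let `t → +∞`: the term `t^(nδ) X^n` dominates the first sum and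
the two other sums are bounded. If `δ₁ > 0` let `t → 0⁺`: `n ω t^(-nδ) X^(-n)` dominates the second sum, the others
are bounded. Second claim. The exponents are `x`, `y`, `x + y` (coefficients `φ u₁ - u₁`, `- φ v₁`, `u₁ v₁`). If `x ≠ 0` and
`y ≠ 0` then `x + y` is different from `x` and `y`, so `u₁ v₁ = 0`, impossible. If `x = 0 ≠ y`: `φ = 1` (exponent `0`) and
`φ v₁ = u₁ v₁`, so `u₁ = 1`. If `y = 0 ≠ x`: `φ v₁ = 0`. -/
def S_algC : Prop :=
  (∀ (X X₁ ω : ℂ) (n : ℕ) (δ δ₁ : ℤ), X ≠ 0 → X₁ ≠ 0 → ω ≠ 0 → 0 < n → δ ≠ 0 →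
    ¬ ∀ t : ℂ, t ≠ 0 → ∑ j ∈ Finset.Icc 1 n, (t ^ δ * X) ^ j
      - ∑ j ∈ Finset.Icc 1 n, (j : ℂ) * ω * ((t ^ δ * X)⁻¹) ^ j
      - ∑ j ∈ Finset.Icc 1 n, (t ^ δ₁ * X₁) ^ j = 0) ∧
  (∀ (φ u₁ v₁ : ℂ) (x y : ℤ), u₁ ≠ 0 → v₁ ≠ 0 → ¬ (x = 0 ∧ y = 0) →
    (∀ t : ℂ, t ≠ 0 → φ * (t ^ x * u₁ - t ^ y * v₁) = t ^ x * u₁ * (1 - t ^ y * v₁)) →
    u₁ = 1 ∨ φ = 0)

/-- JOB QUOT. The quotient of two entire functions with the same zeros is a zero-free entire function.
Proof. If `G = 0` then all orders of `G` are `⊤`, so `F = 0` and `u = 1`. Otherwise `F / G` is meromorphic of order `0` everywhere; take its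
normal form (`toMeromorphicNFOn`), which is analytic without zeros and equals `F/G` off a discrete set; `F = u G`
everywhere by continuity. -/
def S_quot : Prop := ∀ F G : ℂ → ℂ, Differentiable ℂ F → Differentiable ℂ G →
  (∀ z, 0 < meromorphicOrderAt F z ∨ 0 < meromorphicOrderAt G z →
    meromorphicOrderAt F z = meromorphicOrderAt G z) →
  ∃ u : ℂ → ℂ, Differentiable ℂ u ∧ (∀ z, u z ≠ 0) ∧ ∀ z, F z = u z * G z

/-- JOB ENT. Derivatives and differences share poles only for entire functions.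
Proof. (1) Let `f` have a pole at `z₀`, of order `m ≥ 1`. `f'` has at `z₀ - c` a pole of order `k + 1` if `f` has there a pole of order
`k ≥ 1`, and is regular there if `f` has no pole there (`k = 0`). Near `z₀ - c` the function `f (z + c)` has a pole of order `m`. So
`f (z + c) - f (z)` has a pole of order `m` if `m > k`, of order `k` if `m < k`, of order at most `k` if `m = k`. Since the poles
are shared: `k = 0` is impossible (`m ≥ 1 > 0`), so it has order `k + 1`, hence `m = k + 1`. So `f` has a pole of order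
`m - 1 ≥ 1` at `z₀ - c`. By induction on `m` this is impossible. (2) So all orders are `≥ 0`; take `g = toMeromorphicNFOn f univ`. -/
def S_ent : Prop := ∀ (f : ℂ → ℂ) (c : ℂ), MeromorphicOn f univ → c ≠ 0 →
  (∀ z, meromorphicOrderAt (deriv f) z < 0 ∨ meromorphicOrderAt (fun w => f (w + c) - f w) z < 0 →
    meromorphicOrderAt (deriv f) z = meromorphicOrderAt (fun w => f (w + c) - f w) z) →
  ∃ g : ℂ → ℂ, Differentiable ℂ g ∧ f =ᶠ[codiscrete ℂ] g

/-- JOB HYP. The hyper-order of a polynomial of degree at most one is not infinite.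
Proof. `f = a z + b` off a discrete (codiscrete complement) set; `T(r, f) = m(r, f)` (no poles) `≤ log⁺ (|a| r + |b|) ≤ log r + C`
(`characteristic`, `proximity` and `logCounting` do not change on discrete sets: Mathlib congruence lemmas), and `T(r,f) ≥ 0`, so
`log log T(r,f) / log r` is at most `1` for large `r` (if `log T ≤ 0` and `|log T|` is large then `T` is close to `0`; note that
`T(r, f)` is nondecreasing or here explicit: if `a = 0` it is the constant `log⁺ |b|`; if `a ≠ 0` then `T(r,f) → ∞`). -/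
def S_hyp : Prop := ∀ (f : ℂ → ℂ) (a b : ℂ), f =ᶠ[codiscrete ℂ] (fun z => a * z + b) →
  limsup (fun r : ℝ => ((Real.log (Real.log (ValueDistribution.characteristic f ⊤ r)) / Real.log r :
    ℝ) : EReal)) atTop ≠ ⊤

end Pool.Agent.Q72.DS
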